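import Pool.Agent.Helper48.OD.St

set_option autoImplicit false

namespace Pool.Agent.Helper48.OD

open Pool.Agent.Helper43.GD

private def Dl {L : Type} [CommRing L] (K : Subgroup Lˣ) (P : Ideal L) (d : L) : Prop :=
  d ∈ P ∧ ∃ z ∈ K, (z : L) = 1 + d

private theorem stab_pow {L : Type} [CommRing L] {K : Subgroup Lˣ} {P : Ideal L} {u : Lˣ}
    (h : ∀ d, Dl K P d → Dl K P ((u : L) * d)) (n : ℕ) :
    ∀ d, Dl K P d → Dl K P ((u : L) ^ n * d) := by
  induction n with
  | zero => intro d hd; simpa using hd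
  | succ n ih => intro d hd; rw [pow_succ', mul_assoc]; exact h _ (ih d hd)

private theorem stab_inv {L : Type} [CommRing L] [Finite L] {K : Subgroup Lˣ} {P : Ideal L} {u : Lˣ}
    (h : ∀ d, Dl K P d → Dl K P ((u : L) * d)) :
    ∀ d, Dl K P d → Dl K P (((u⁻¹ : Lˣ) : L) * d) := by
  have hf : IsOfFinOrder u := isOfFinOrder_of_finite u
  have hp : 0 < orderOf u := hf.orderOf_pos
  have e : u⁻¹ = u ^ (orderOf u - 1) := by
    apply inv_eq_of_mul_eq_one_left
    rw [← pow_succ, Nat.sub_add_cancel hp, pow_orderOf_eq_one]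
  intro d hd
  rw [e, Units.val_pow_eq_pow_val]
  exact stab_pow h _ d hd

theorem hB4K : StB4K := by
  intro L _ K hK P hP
  have := hK.fin
  have := hK.nt
  have h2P : (2 : L) ∉ P := fun h => hP.ne_top (Ideal.eq_top_of_isUnit_mem _ h hK.two)
  have hodd : ∀ z ∈ K, (z : L) - 1 ∈ P → Od z := by
    intro z hz hzP
    rcases hK.ui.ev_or_od hz with ⟨m, hm⟩ | ho
    · exfalso
      have hm' : (z : L) ^ m = -1 := by
        have := congrArg (Units.val) hm
        simpa using this
      have h1 := one_sub_dvd_one_sub_pow (z : L) m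
      rw [hm'] at h1
      have h3 : (1 : L) - z ∈ P := by
        have := P.neg_mem hzP
        rwa [neg_sub] at this
      have h4 := P.mem_of_dvd h1 h3
      apply h2P
      have e : (1 : L) - (-1) = 2 := by ring
      rwa [e] at h4
    · exact ho
  -- step 1
  have s1 : ∀ τ ∈ K, Ev τ → ∃ c ∈ K, (c : L) = 1 - (τ : L) ∧
      ∀ d, Dl K P d → Dl K P (-(τ : L) * ((c⁻¹ : Lˣ) : L) * d) := by
    intro τ hτ hev
    obtain ⟨c, hc, ec⟩ := hK.cl τ hτ (hev.isUnit hK.two)
    refine ⟨c, hc, ec, ?_⟩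
    rintro d ⟨hdP, z, hz, ez⟩
    have hzo : Od z := hodd z hz (by rw [ez, add_sub_cancel_left]; exact hdP)
    have hev2 : Ev (τ * z) := hev.mul_od hzo
    obtain ⟨e, he, ee⟩ := hK.cl (τ * z) (K.mul_mem hτ hz) (hev2.isUnit hK.two)
    refine ⟨P.mul_mem_left _ hdP, e * c⁻¹, K.mul_mem he (K.inv_mem hc), ?_⟩
    have hcc : (c : L) * ((c⁻¹ : Lˣ) : L) = 1 := c.mul_inv
    rw [Units.val_mul, ee, Units.val_mul, ez]
    have e1 : (1 : L) - (τ : L) * (1 + d) = (c : L) - τ * d := by rw [ec]; ring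
    rw [e1]
    linear_combination hcc
  have s2 : ∀ τ ∈ K, Ev τ → ∀ d, Dl K P d → Dl K P (-(τ : L) * d) := by
    intro τ hτ hev
    obtain ⟨c, hc, ec, h1⟩ := s1 τ hτ hev
    obtain ⟨c', hc', ec', h1'⟩ := s1 τ⁻¹ (K.inv_mem hτ) hev.inv
    have hcc : (c : L) * ((c⁻¹ : Lˣ) : L) = 1 := c.mul_inv
    have htt : (τ : L) * ((τ⁻¹ : Lˣ) : L) = 1 := τ.mul_inv
    -- `c' = -c/τ`
    have e3 : c' = -(c * τ⁻¹) := by
      apply Units.ext
      rw [Units.val_neg, Units.val_mul, ec', ec]
      linear_combination -htt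
    have e4 : -((τ⁻¹ : Lˣ) : L) * ((c'⁻¹ : Lˣ) : L) = ((c⁻¹ : Lˣ) : L) := by
      have e5 : (-τ⁻¹) * c'⁻¹ = c⁻¹ := by
        rw [e3, inv_neg, mul_inv, inv_inv, neg_mul_neg, mul_comm c⁻¹ τ, inv_mul_cancel_left]
      rw [← e5]
      simp
    have hcinv : ∀ d, Dl K P d → Dl K P (((c⁻¹ : Lˣ) : L) * d) := by
      intro d hd
      have := h1' d hd
      rwa [e4] at this
    have hcst : ∀ d, Dl K P d → Dl K P ((c : L) * d) := by
      have := stab_inv (u := c⁻¹) hcinv
      rwa [inv_inv] at this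
    intro d hd
    have := hcst _ (h1 d hd)
    have e6 : (c : L) * (-(τ : L) * ((c⁻¹ : Lˣ) : L) * d) = -(τ : L) * d := by
      linear_combination (-(τ : L) * d) * hcc
    rwa [e6] at this
  have s3 : ∀ o ∈ K, Od o → ∀ d, Dl K P d → Dl K P ((o : L) * d) := by
    intro o ho hod d hd
    have hno : -o ∈ K := by
      have := K.mul_mem hK.neg ho
      rwa [neg_one_mul] at this
    have hev : Ev (-o) := by
      have := Ev.neg_one.mul_od hod
      rwa [neg_one_mul] at this
    have := s2 (-o) hno hev d hd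
    rwa [Units.val_neg, neg_neg] at this
  have s4 : ∀ d₁ d₂, Dl K P d₁ → Dl K P d₂ → Dl K P (d₁ + d₂) := by
    rintro d₁ d₂ ⟨h1P, z₁, hz₁, e₁⟩ h2
    have hzo : Od z₁ := hodd z₁ hz₁ (by rw [e₁, add_sub_cancel_left]; exact h1P)
    obtain ⟨h3P, z, hz, ez⟩ := s3 z₁⁻¹ (K.inv_mem hz₁) hzo.inv d₂ h2
    refine ⟨P.add_mem h1P h2.1, z₁ * z, K.mul_mem hz₁ hz, ?_⟩
    have hzz : (z₁ : L) * ((z₁⁻¹ : Lˣ) : L) = 1 := z₁.mul_inv
    rw [Units.val_mul, ez, mul_add, mul_one, ← mul_assoc, hzz, one_mul, e₁]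
    ring
  have s5 : Dl K P 0 := ⟨P.zero_mem, 1, K.one_mem, by simp⟩
  have s6 : ∀ (n : ℕ) d, Dl K P d → Dl K P ((n : L) * d) := by
    intro n d hd
    induction n with
    | zero => simpa using s5
    | succ n ih => rw [Nat.cast_succ, add_mul, one_mul]; exact s4 _ _ ih hd
  have s7 : ∀ d, Dl K P d → Dl K P (-d) := by
    intro d hd
    have hc : (Nat.card L : L) = 0 := by
      have := Fintype.ofFinite L
      rw [Nat.card_eq_fintype_card]
      exact Nat.cast_card_eq_zero L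
    have hpos : 0 < Nat.card L := Nat.card_pos
    have h1 := s6 (Nat.card L - 1) d hd
    have e : ((Nat.card L - 1 : ℕ) : L) = -1 := by
      rw [Nat.cast_sub hpos, hc, Nat.cast_one, zero_sub]
    rwa [e, neg_one_mul] at h1
  have s8 : ∀ z ∈ K, ∀ d, Dl K P d → Dl K P ((z : L) * d) := by
    intro z hz d hd
    rcases hK.ui.ev_or_od hz with hev | hod
    · have := s7 _ (s2 z hz hev d hd)
      rwa [neg_mul, neg_neg] at this
    · exact s3 z hz hod d hd
  obtain ⟨v, hv, hgn⟩ := hK.gen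
  let R : Subring L :=
    { carrier := {c | ∀ d, Dl K P d → Dl K P (c * d)}
      mul_mem' := by
        intro a b ha hb d hd
        rw [mul_assoc]
        exact ha _ (hb d hd)
      one_mem' := by intro d hd; rwa [one_mul]
      add_mem' := by
        intro a b ha hb d hd
        rw [add_mul]
        exact s4 _ _ (ha d hd) (hb d hd)
      zero_mem' := by intro d _; rw [zero_mul]; exact s5
      neg_mem' := by
        intro a ha d hd
        rw [neg_mul]
        exact s7 _ (ha d hd) }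
  have hR : R = ⊤ := (gn_iff (v : L)).1 hgn R (s8 v hv)
  refine ⟨{ carrier := {d | Dl K P d}
            add_mem' := fun {a b} ha hb => s4 a b ha hb
            zero_mem' := s5
            smul_mem' := by
              intro c d hd
              have : c ∈ R := by rw [hR]; trivial
              exact this d hd }, ?_⟩
  intro d
  exact Iff.rfl

end Pool.Agent.Helper48.OD
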