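import Pool.Agent.Helper48.OD.St

set_option autoImplicit false

namespace Pool.Agent.Helper48.OD

open Pool.Agent.Helper43.GD

theorem hLC4 (hK : StKSG) (hG : StGDK) (hC : StCT4) (hB : StB5K) : StLC4 := by
  intro L A _ _ Q h
  obtain ⟨k1, kn, km, ki⟩ := hK L A Q h
  let K : Subgroup Lˣ :=
    { carrier := {y | K4 Q y}
      one_mem' := k1
      mul_mem' := fun {a b} ha hb => km a b ha hb
      inv_mem' := fun {a} ha => ki a ha }
  have hKm : ∀ y : Lˣ, y ∈ K ↔ K4 Q y := fun y => Iff.rfl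
  have hKU : K ≤ Q.U := fun y hy => hy.1
  obtain ⟨ξ, hξ1, hξ2, hξ3⟩ := h.xi
  have hKK : KK L K :=
    { fin := h.fin
      nt := h.nt
      two := h.two
      ui := fun ι hι h2 => h.ui ι (hKU hι) h2
      neg := kn
      gen := ⟨ξ, hG L A Q ξ h hξ2, hξ3⟩
      cl := by
        intro y hy hu
        have hg := hC L A Q y h hy hu
        obtain ⟨u, _, e⟩ := hg.2
        exact ⟨u, hG L A Q u h (Gd.one_sub Q hg e), e⟩ }
  obtain ⟨h1, h2⟩ := hB L K hKK
  exact ⟨h1, fun u => hKU (h2 u)⟩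

theorem hLD2 (hD : StDOD) (hG : StK2G) (hV : StK2V) (hP : StXP) (hM : StXM) (hXB : StXB)
    (hC : StCT2) (hB : StB5K) : StLD2 := by
  intro L A _ _ Q v h
  obtain ⟨k1, kn, km, ki, _, _⟩ := hG L A Q v h
  obtain ⟨hd1, hd2⟩ := hD L A Q v h
  let K : Subgroup Lˣ :=
    { carrier := {y | K2 Q y}
      one_mem' := k1
      mul_mem' := fun {a b} ha hb => km a b ha hb
      inv_mem' := fun {a} ha => ki a ha }
  have hKU : K ≤ Q.U := fun y hy => hy.1
  obtain ⟨v', hv', ev'⟩ := h.fo.gd.2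
  have hKv : K2 Q v := (hV L A Q v v' h ev').1
  have hKK : KK L K :=
    { fin := h.cb.fin
      nt := h.cb.nt
      two := h.cb.two
      ui := fun ι hι h2 => h.cb.ui ι (hKU hι) h2
      neg := kn
      gen := ⟨v, hKv, h.fo.gn⟩
      cl := by
        intro y hy hu
        have hy' : K2 Q y := hy
        have hg := hC L A Q v y h hy hu
        obtain ⟨u, huU, e⟩ := hg.2
        refine ⟨u, ?_, e⟩
        change K2 Q u
        rcases hd1 y hy'.1 with ho | ho
        · exact hXB L A Q v y u h hy' ho hg e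
        · have ha : K2 Q (-y) := by
            have := km (-1) y kn hy'
            rwa [neg_one_mul] at this
          have e' : (u : L) = 1 + ((-y : Lˣ) : L) := by
            rw [Units.val_neg, e, sub_eq_add_neg]
          rcases hd1 u huU with hu1 | hu1
          · exact hP L A Q v (-y) u h ha ho e' hu1
          · exact hM L A Q v (-y) u h ha ho e' hu1 }
  obtain ⟨h1, h2⟩ := hB L K hKK
  exact ⟨h1, fun u => hKU (h2 u)⟩

/-- an element `ε` with `2ε = 1 + ι` -/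
private theorem eps_facts {L : Type} [CommRing L] (h2 : IsUnit (2 : L)) {ι : Lˣ} (hι : ι ^ 2 = 1)
    (h1 : ι ≠ 1) (hn : ι ≠ -1) : ∃ ε : L, 2 * ε = 1 + (ι : L) ∧ ε * ε = ε ∧ ε ≠ 0 ∧ ε ≠ 1 := by
  obtain ⟨t, ht⟩ := h2
  have hι' : (ι : L) ^ 2 = 1 := by
    have := congrArg Units.val hι
    simpa using this
  refine ⟨((t⁻¹ : Lˣ) : L) * (1 + ι), ?_, ?_, ?_, ?_⟩
  · rw [← ht, Units.mul_inv_cancel_left]
  · have e : (t : L) * ((t⁻¹ : Lˣ) : L) = 1 := t.mul_inv
    have e2 : (1 + (ι : L)) * (1 + (ι : L)) = (t : L) * (1 + ι) := by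
      rw [ht]; linear_combination hι'
    calc ((t⁻¹ : Lˣ) : L) * (1 + ι) * (((t⁻¹ : Lˣ) : L) * (1 + ι))
        = ((t⁻¹ : Lˣ) : L) * ((t⁻¹ : Lˣ) : L) * ((1 + ι) * (1 + ι)) := by ring
      _ = ((t⁻¹ : Lˣ) : L) * ((t : L) * ((t⁻¹ : Lˣ) : L)) * (1 + ι) := by rw [e2]; ring
      _ = _ := by rw [e, mul_one]
  · intro h0
    have h3 : (1 : L) + ι = 0 := by
      have := congrArg (fun z => (t : L) * z) h0
      simpa using this
    apply hn
    apply Units.ext
    rw [Units.val_neg, Units.val_one]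
    linear_combination h3
  · intro h0
    have h3 : (1 : L) + ι = 2 := by
      have := congrArg (fun z => (t : L) * z) h0
      simp only [Units.mul_inv_cancel_left, mul_one] at this
      rw [this, ht]
    apply h1
    apply Units.ext
    rw [Units.val_one]
    linear_combination h3

/-- splitting by an involution -/
private theorem split (hI : StINV) {L A : Type} [CommRing L] [Group A] (Q : Fr L A) (x ι : Lˣ)
    (hf : Finite L) (h2 : IsUnit (2 : L)) (hg : Gn (x : L)) (hx : Gd Q x)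
    (hιx : ∀ j ∈ Q.U, j ^ 2 = 1 → Gd Q (j * x)) (hι : ι ∈ Q.U) (hι2 : ι ^ 2 = 1) (h1 : ι ≠ 1)
    (hn : ι ≠ -1) (y : Lˣ) : Good3 L A Q y := by
  obtain ⟨ε, e1, e2, e3, e4⟩ := eps_facts h2 hι2 h1 hn
  refine Or.inr (Or.inl ⟨ε, e2, e3, e4, ?_, ?_⟩)
  · exact hI L A Q x ι ε hf h2 hg hx (hιx ι hι hι2) hι hι2 e1
  · have hι' : -ι ∈ Q.U := neg_mem Q hι
    have hι2' : (-ι) ^ 2 = 1 := by rw [neg_sq, hι2]
    have e1' : 2 * (1 - ε) = 1 + ((-ι : Lˣ) : L) := by
      rw [Units.val_neg]; linear_combination -e1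
    have := hI L A Q x (-ι) (1 - ε) hf h2 hg hx (hιx _ hι' hι2') hι' hι2' e1'
    simpa using this

theorem hGO (hR : StROV) (hU : StUP) (hI : StINV) (hP : StIDP) (hX : StMXA) (hCV : StCHV)
    (hW : StFPW) (hT : StTWO) (h4 : StOC4) (hL4 : StLC4) (hL2 : StLD2)
    (hC2 : Pool.Agent.Helper46.C2.StIN) : StGO := by
  intro l k h r L A _ _ Q x hx hnt hxU
  have hfo := hR.1 l k h r L A Q x hx hxU
  have hf : Finite L := hx.fin
  obtain ⟨e, g, j, m, he, hj, hm, hme, hg, he0, he1⟩ := hP L hf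
  by_cases hc1 : e = 1
  · left
    obtain ⟨i, n, hR2⟩ := hCV l k h r L x hnt hx (he1 hc1)
    exact hW L x n (hC2 i L _ hR2)
  by_cases hc0 : e = 0
  · have h2 := he0 hc0
    by_cases hui : UI Q.U
    · have hcb : CB L A Q :=
        { fin := hf, nt := hnt, two := h2, ui := hui, in2 := hT L A Q _ hfo hnt h2 hui }
      by_cases hth : ∃ θ ∈ Q.U, θ ^ 2 = -1
      · obtain ⟨a1, a2⟩ := hL4 L A Q (h4 L A Q _ hcb hfo hth)
        exact Or.inr (Or.inr ⟨a1, h2, a2⟩)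
      · obtain ⟨a1, a2⟩ := hL2 L A Q _ ⟨hcb, hfo, hth⟩
        exact Or.inr (Or.inr ⟨a1, h2, a2⟩)
    · unfold UI at hui
      push Not at hui
      obtain ⟨ι, hι, hι2, h1, hn⟩ := hui
      refine split hI Q (x ^ k) ι hf h2 hfo.gn hfo.gd ?_ hι hι2 h1 hn x
      intro j hj hj2
      exact hU.2 L A Q _ j hfo hj ⟨1, by simpa using hj2⟩
  · obtain ⟨c1, c2⟩ := hX L A Q _ e g j m hfo he hj hm hme hg
    exact Or.inr (Or.inl ⟨e, he, hc0, hc1, c1, c2⟩)

theorem hGE (hR : StER) (hE : StEG) (hI : StINV) (h4 : StEC4) (hL4 : StLC4) : StGE := by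
  intro l k h a L A _ _ Q x hx hnt hxU
  obtain ⟨hev, _⟩ := hR l k h a L x hx
  have hf : Finite L := hx.fin
  have hv : Gd Q (x ^ k) := by
    refine ⟨Q.U.pow_mem hxU k, ⟨x ^ l, Q.U.pow_mem hxU l, ?_⟩⟩
    rw [Units.val_pow_eq_pow_val, Units.val_pow_eq_pow_val]
    linear_combination hx.tri
  obtain ⟨g1, g2, g3⟩ := hE a L A Q x (x ^ k) hev hxU hv
  by_cases hui : UI Q.U
  · obtain ⟨a1, a2⟩ := hL4 L A Q (h4 a L A Q x (x ^ k) hev hxU hv hnt hui)
    exact Or.inr (Or.inr ⟨a1, hev.two, a2⟩)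
  · unfold UI at hui
    push Not at hui
    obtain ⟨ι, hι, hι2, h1, hn⟩ := hui
    exact split hI Q x ι hf hev.two hev.gx g1 g2 hι hι2 h1 hn x

theorem hFO (hIN : StINX) (hQ : StQUO) (hR : StROV) (hG : StGO) : StFO := by
  intro l k h r L _ x hx
  refine hIN (fun L _ x => RO l k h r L x) (fun L _ x hx => hR.2 l k h r L x hx)
    (fun L _ x I hx => hQ.1 l k h r L x I hx) ?_ L x hx
  intro L A _ _ Q x hx hnt hxU
  exact hG l k h r L A Q x hx hnt hxU

theorem hFE (hIN : StINX) (hQ : StQUO) (hR : StER) (hG : StGE) : StFE := by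
  intro l k h a L _ x hx
  refine hIN (fun L _ x => RE l k h a L x) (fun L _ x hx => (hR l k h a L x hx).2)
    (fun L _ x I hx => hQ.2 l k h a L x I hx) ?_ L x hx
  intro L A _ _ Q x hx hnt hxU
  exact hG l k h a L A Q x hx hnt hxU

end Pool.Agent.Helper48.OD
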