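import Pool.Agent.Helper46.C2.All
import Pool.Agent.Helper41.GD.M_CEL
import Pool.Agent.Helper26.GD.M_RL
import Pool.Agent.Helper5.AY.M_SPL
import Pool.Agent.Helper16.OD.M_QUO
import Pool.Agent.Helper34.OD.M_GNV
import Pool.Agent.Helper84.OD.M_ROV
import Pool.Agent.Helper57.OD.M_NV
import Pool.Agent.Helper86.OD.M_UP
import Pool.Agent.Helper13.OD.M_TWO
import Pool.Agent.Helper28.OD.M_INV
import Pool.Agent.Helper62.OD.M_IDP
import Pool.Agent.Helper41.OD.M_MXP
import Pool.Agent.Helper98.OD.M_MXZ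
import Pool.Agent.Helper63.OD.M_MXS
import Pool.Agent.Helper99.OD.M_MXA
import Pool.Agent.Helper9.OD.M_BIN
import Pool.Agent.Helper22.OD.M_CHT
import Pool.Agent.Helper37.OD.M_CHV
import Pool.Agent.Helper42.OD.M_FPW
import Pool.Agent.Helper8.OD.M_L13
import Pool.Agent.Helper64.OD.M_PRD
import Pool.Agent.Helper15.OD.M_KSG
import Pool.Agent.Helper37.OD.M_GDK
import Pool.Agent.Helper47.OD.M_CT4
import Pool.Agent.Helper48.OD.M_B4K
import Pool.Agent.Helper53.OD.M_B5K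
import Pool.Agent.Helper2.OD.M_OC4
import Pool.Agent.Helper38.OD.M_DOD
import Pool.Agent.Helper32.OD.M_K2G
import Pool.Agent.Helper2.OD.M_K2T
import Pool.Agent.Helper72.OD.M_K2V
import Pool.Agent.Helper6.OD.M_XP
import Pool.Agent.Helper76.OD.M_XM
import Pool.Agent.Helper63.OD.M_XB
import Pool.Agent.Helper29.OD.M_CT2
import Pool.Agent.Helper39.OD.M_ER
import Pool.Agent.Helper81.OD.M_EG
import Pool.Agent.Helper91.OD.M_CYC
import Pool.Agent.Helper58.OD.M_EC4
import Pool.Agent.Helper88.OD.M_SDX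
import Pool.Agent.Helper70.OD.M_SEX
import Pool.Agent.Helper90.OD.M_INX
import Pool.Agent.Helper48.OD.M_LC4

/-! Project OD: all modules together. -/

set_option autoImplicit false

namespace Pool.Agent.Helper48.OD

open Pool.Agent

theorem rP1 : Helper43.GD.StP1 := Helper46.C2.gP1
theorem rP2 : Helper43.GD.StP2 := Helper46.C2.gP2
theorem rSPL : Helper50.AY.StSPL := Helper5.AY.hSPL Helper46.C2.gRR
theorem rCEL : Helper43.GD.StCEL := Helper41.GD.hCEL (Helper26.GD.hRL Helper46.C2.gRR)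
theorem pSS : StSS := hSS rP1
theorem pCM : StCM := hCM Helper46.C2.yCMB2
theorem pGP : StGP := hGP rP1 pSS
theorem pGR : StGR := hGR rP2 pCM

theorem pQUO : StQUO := Helper16.OD.hQUO
theorem pGNV : StGNV := Helper34.OD.hGNV
theorem pROV : StROV := Helper84.OD.hROV pGNV
theorem pNV : StNV := Helper57.OD.hNV rP1 rP2 pCM
theorem pUP : StUP := Helper86.OD.hUP pSS pGR
theorem pTWO : StTWO := Helper13.OD.hTWO rP1 rP2 pCM pNV
theorem pINV : StINV := Helper28.OD.hINV rSPL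
theorem pIDP : StIDP := Helper62.OD.hIDP
theorem pMXP : StMXP := Helper41.OD.hMXP pUP
theorem pMXZ : StMXZ := Helper98.OD.hMXZ
theorem pMXS : StMXS := Helper63.OD.hMXS rSPL pNV
theorem pMXA : StMXA := Helper99.OD.hMXA pUP pMXP pMXZ pMXS
theorem pBIN : StBIN := Helper9.OD.hBIN
theorem pCHT : StCHT := Helper22.OD.hCHT pBIN
theorem pCHV : StCHV := Helper37.OD.hCHV pCHT pGNV
theorem pFPW : StFPW := Helper42.OD.hFPW
theorem pL13 : StL13 := Helper8.OD.hL13 pSS pGP pGR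
theorem pPRD : StPRD := Helper64.OD.hPRD pGP pL13
theorem pKSG : StKSG := Helper15.OD.hKSG pPRD
theorem pGDK : StGDK := Helper37.OD.hGDK pL13 pPRD
theorem pCT4 : StCT4 := Helper47.OD.hCT4 pKSG pGDK
theorem pB4K : StB4K := hB4K
theorem pB5K : StB5K := Helper53.OD.hB5K pB4K
theorem pOC4 : StOC4 := Helper2.OD.hOC4 pNV pUP pL13
theorem pDOD : StDOD := Helper38.OD.hDOD
theorem pK2G : StK2G := Helper32.OD.hK2G pDOD
theorem pK2T : StK2T := Helper2.OD.hK2T pDOD pK2G pL13 pGP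
theorem pK2V : StK2V := Helper72.OD.hK2V pDOD pK2G pK2T
theorem pXP : StXP := Helper6.OD.hXP pK2G pK2T pK2V pDOD
theorem pXM : StXM := Helper76.OD.hXM pK2G pK2T pK2V pDOD
theorem pXB : StXB := Helper63.OD.hXB pK2G pK2T pK2V pDOD
theorem pCT2 : StCT2 := Helper29.OD.hCT2 pDOD pK2G pXP pXM
theorem pER : StER := Helper39.OD.hER pGNV
theorem pEG : StEG := Helper81.OD.hEG pUP
theorem pCYC : StCYC := Helper91.OD.hCYC
theorem pEC4 : StEC4 := Helper58.OD.hEC4 pUP pEG pCYC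
theorem pSDX : StSDX := Helper88.OD.hSDX
theorem pSEX : StSEX := Helper70.OD.hSEX pSDX
theorem pINX : StINX :=
  Helper90.OD.hINX Helper46.C2.gHAT rCEL Helper46.C2.yPFA Helper46.C2.yAUA pSEX
theorem pLC4 : StLC4 := hLC4 pKSG pGDK pCT4 pB5K
theorem pLD2 : StLD2 := hLD2 pDOD pK2G pK2V pXP pXM pXB pCT2 pB5K
theorem pGO : StGO :=
  hGO pROV pUP pINV pIDP pMXA pCHV pFPW pTWO pOC4 pLC4 pLD2 Helper46.C2.pIN
theorem pGE : StGE := hGE pER pEG pINV pEC4 pLC4

/-- class O -/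
theorem pFO : StFO := hFO pINX pQUO pROV pGO

/-- class E -/
theorem pFE : StFE := hFE pINX pQUO pER pGE

end Pool.Agent.Helper48.OD
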