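import Pool.Agent.Helper43.GD.St
import Pool.Agent.Helper50.AY.St

/-! Project OD (MP_b3ce06_al, odd `q`, part (II)).  Definitions and basic lemmas. -/

set_option autoImplicit false

namespace Pool.Agent.Helper48.OD

open Pool.Agent.Helper43.GD

section Ring

variable {L : Type} [CommRing L]

/-- `-1` is a power of `y` -/
def Ev (y : Lˣ) : Prop := ∃ m : ℕ, y ^ m = -1

/-- odd order -/
def Od (y : Lˣ) : Prop := ∃ m : ℕ, Odd m ∧ y ^ m = 1

/-- the order is a power of two -/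
def Tw (y : Lˣ) : Prop := ∃ s : ℕ, y ^ (2 ^ s) = 1

theorem Ev.neg_one : Ev (-1 : Lˣ) := ⟨1, pow_one _⟩

theorem Od.one : Od (1 : Lˣ) := ⟨1, odd_one, one_pow _⟩

theorem Tw.one : Tw (1 : Lˣ) := ⟨0, one_pow _⟩

theorem Tw.neg_one : Tw (-1 : Lˣ) := ⟨1, by simp⟩

theorem Od.mul {x y : Lˣ} (hx : Od x) (hy : Od y) : Od (x * y) := by
  obtain ⟨m, hm, hm'⟩ := hx
  obtain ⟨n, hn, hn'⟩ := hy
  refine ⟨m * n, hm.mul hn, ?_⟩
  rw [mul_pow, pow_mul, hm', one_pow, mul_comm m n, pow_mul, hn', one_pow, one_mul]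

theorem Od.inv {x : Lˣ} (hx : Od x) : Od x⁻¹ := by
  obtain ⟨m, hm, hm'⟩ := hx
  exact ⟨m, hm, by rw [inv_pow, hm', inv_one]⟩

theorem Od.pow {x : Lˣ} (hx : Od x) (n : ℕ) : Od (x ^ n) := by
  obtain ⟨m, hm, hm'⟩ := hx
  exact ⟨m, hm, by rw [← pow_mul, mul_comm, pow_mul, hm', one_pow]⟩

theorem Tw.mul {x y : Lˣ} (hx : Tw x) (hy : Tw y) : Tw (x * y) := by
  obtain ⟨m, hm'⟩ := hx
  obtain ⟨n, hn'⟩ := hy
  refine ⟨m + n, ?_⟩
  rw [mul_pow, pow_add, pow_mul, hm', one_pow, mul_comm (2 ^ m), pow_mul, hn', one_pow, one_mul]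

theorem Tw.inv {x : Lˣ} (hx : Tw x) : Tw x⁻¹ := by
  obtain ⟨m, hm'⟩ := hx
  exact ⟨m, by rw [inv_pow, hm', inv_one]⟩

theorem Tw.pow {x : Lˣ} (hx : Tw x) (n : ℕ) : Tw (x ^ n) := by
  obtain ⟨m, hm'⟩ := hx
  exact ⟨m, by rw [← pow_mul, mul_comm, pow_mul, hm', one_pow]⟩

/-- an element of odd order is a power of its `2^s`-th power -/
theorem Od.eq_pow {y : Lˣ} (hy : Od y) (s : ℕ) : ∃ n : ℕ, (y ^ (2 ^ s)) ^ n = y := by
  obtain ⟨m, hm, hm'⟩ := hy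
  have hc : Nat.Coprime (2 ^ s) m := Nat.Coprime.pow_left s (Nat.coprime_two_left.2 hm)
  rcases Nat.eq_zero_or_pos (m - 1) with h0 | h0
  · have : m = 1 := by obtain ⟨k, hk⟩ := hm; omega
    subst this
    rw [pow_one] at hm'
    exact ⟨0, by rw [hm']; simp⟩
  · obtain ⟨n, hn⟩ := Nat.exists_mul_mod_eq_one_of_coprime hc (by omega)
    refine ⟨n, ?_⟩
    rw [← pow_mul]
    have h2 := Nat.div_add_mod (2 ^ s * n) m
    rw [hn.2] at h2
    rw [← h2, pow_add, pow_mul, hm', one_pow, pow_one, one_mul]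

theorem Ev.mul_od {y o : Lˣ} (hy : Ev y) (ho : Od o) : Ev (y * o) := by
  obtain ⟨m, hm⟩ := hy
  obtain ⟨n, hn, hn'⟩ := ho
  refine ⟨m * n, ?_⟩
  rw [mul_pow, pow_mul, hm, mul_comm m n, pow_mul, hn', one_pow, mul_one, hn.neg_one_pow]

theorem Ev.inv {y : Lˣ} (hy : Ev y) : Ev y⁻¹ := by
  obtain ⟨m, hm⟩ := hy
  exact ⟨m, by rw [inv_pow, hm]; simp⟩

theorem Ev.not_od {y : Lˣ} (h : (-1 : Lˣ) ≠ 1) (hy : Ev y) : ¬ Od y := by
  rintro ⟨n, hn, hn'⟩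
  obtain ⟨m, hm⟩ := hy
  apply h
  have : (-1 : Lˣ) ^ n = 1 := by rw [← hm, ← pow_mul, mul_comm, pow_mul, hn', one_pow]
  rwa [hn.neg_one_pow] at this

/-- the 2-part and the odd part of an element of finite order -/
theorem decomp [Finite L] (y : Lˣ) : ∃ i j : ℕ, Tw (y ^ i) ∧ Od (y ^ j) ∧ y ^ i * y ^ j = y := by
  have hf : IsOfFinOrder y := isOfFinOrder_of_finite y
  have hp : 0 < orderOf y := hf.orderOf_pos
  obtain ⟨s, m, hm, he⟩ := Nat.exists_eq_two_pow_mul_odd hp.ne'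
  have hmodd : Odd m := hm
  have hc : Nat.Coprime (2 ^ s) m := Nat.Coprime.pow_left s (Nat.coprime_two_left.2 hmodd)
  have hc' : IsCoprime ((2 ^ s : ℕ) : ℤ) (m : ℤ) := Nat.isCoprime_iff_coprime.2 hc
  obtain ⟨α, β, hαβ⟩ := hc'
  have hN : ((orderOf y : ℕ) : ℤ) = (2 ^ s : ℕ) * m := by rw [he]; push_cast; ring
  have hz : ∀ c : ℤ, ∃ n : ℕ, y ^ n = y ^ c := by
    intro c
    refine ⟨(c % (orderOf y : ℤ)).toNat, ?_⟩
    have h0 : 0 ≤ c % (orderOf y : ℤ) := Int.emod_nonneg _ (by positivity)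
    rw [← zpow_natCast, Int.toNat_of_nonneg h0, zpow_mod_orderOf]
  obtain ⟨i, hi⟩ := hz (β * m)
  obtain ⟨j, hj⟩ := hz (α * (2 ^ s : ℕ))
  have h1 : y ^ (((2 ^ s : ℕ) : ℤ) * m) = 1 := by rw [← hN, zpow_natCast, pow_orderOf_eq_one]
  refine ⟨i, j, ⟨s, ?_⟩, ⟨m, hmodd, ?_⟩, ?_⟩
  · rw [hi, ← zpow_natCast, ← zpow_mul]
    have : β * (m : ℤ) * ((2 ^ s : ℕ) : ℤ) = (((2 ^ s : ℕ) : ℤ) * m) * β := by ring
    rw [this, zpow_mul, h1, one_zpow]
  · rw [hj, ← zpow_natCast, ← zpow_mul]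
    have : α * ((2 ^ s : ℕ) : ℤ) * (m : ℤ) = (((2 ^ s : ℕ) : ℤ) * m) * α := by ring
    rw [this, zpow_mul, h1, one_zpow]
  · rw [hi, hj, ← zpow_add]
    have : β * (m : ℤ) + α * ((2 ^ s : ℕ) : ℤ) = 1 := by linarith
    rw [this, zpow_one]

/-- `H` has no involution except (possibly) `-1` -/
def UI (H : Subgroup Lˣ) : Prop := ∀ ι ∈ H, ι ^ 2 = 1 → ι = 1 ∨ ι = -1

theorem UI.ev_of_tw {H : Subgroup Lˣ} (hH : UI H) {y : Lˣ} (hy : y ∈ H) (ht : Tw y) (h1 : y ≠ 1) :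
    Ev y := by
  obtain ⟨s, hs⟩ := ht
  induction s with
  | zero => exact absurd (by simpa using hs) h1
  | succ s ih =>
    by_cases hc : y ^ (2 ^ s) = 1
    · exact ih hc
    · have h2 : (y ^ (2 ^ s)) ^ 2 = 1 := by rw [← pow_mul, ← pow_succ, hs]
      rcases hH _ (H.pow_mem hy _) h2 with h | h
      · exact absurd h hc
      · exact ⟨_, h⟩

/-- every element of `H` is even or odd -/
theorem UI.ev_or_od [Finite L] {H : Subgroup Lˣ} (hH : UI H) {y : Lˣ} (hy : y ∈ H) :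
    Ev y ∨ Od y := by
  obtain ⟨i, j, hi, hj, hij⟩ := decomp y
  by_cases h1 : y ^ i = 1
  · right
    rw [h1, one_mul] at hij
    rw [← hij]
    exact hj
  · left
    rw [← hij]
    exact (hH.ev_of_tw (H.pow_mem hy i) hi h1).mul_od hj

theorem one_sub_dvd_one_sub_pow (y : L) (n : ℕ) : (1 - y) ∣ (1 - y ^ n) := by
  have h := sub_dvd_pow_sub_pow (1 : L) y n
  rwa [one_pow] at h

theorem Ev.isUnit {y : Lˣ} (hy : Ev y) (h2 : IsUnit (2 : L)) : IsUnit (1 - (y : L)) := by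
  obtain ⟨m, hm⟩ := hy
  have hm' : (y : L) ^ m = -1 := by
    have := congrArg (Units.val) hm
    simpa using this
  have := one_sub_dvd_one_sub_pow (y : L) m
  rw [hm'] at this
  exact isUnit_of_dvd_unit this (by norm_num; exact h2)

theorem Od.isUnit_add {y : Lˣ} (hy : Od y) (h1 : IsUnit (1 - (y : L))) : IsUnit (1 + (y : L)) := by
  obtain ⟨n, hn⟩ := hy.eq_pow 1
  have hn' : ((y : L) ^ 2) ^ n = (y : L) := by
    have := congrArg (Units.val) hn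
    simpa using this
  have h := one_sub_dvd_one_sub_pow ((y : L) ^ 2) n
  rw [hn'] at h
  have h2 : IsUnit (1 - (y : L) ^ 2) := isUnit_of_dvd_unit h h1
  have h3 : (1 + (y : L)) ∣ (1 - (y : L) ^ 2) := ⟨1 - (y : L), by ring⟩
  exact isUnit_of_dvd_unit h3 h2

/-- in a finite ring a subring contains the inverses of its units -/
theorem inv_mem [Finite L] (R : Subring L) (u : Lˣ) (h : (u : L) ∈ R) :
    ((u⁻¹ : Lˣ) : L) ∈ R := by
  have hf : IsOfFinOrder u := isOfFinOrder_of_finite u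
  have hp : 0 < orderOf u := hf.orderOf_pos
  have e : u⁻¹ = u ^ (orderOf u - 1) := by
    apply inv_eq_of_mul_eq_one_left
    rw [← pow_succ, Nat.sub_add_cancel hp, pow_orderOf_eq_one]
  rw [e, Units.val_pow_eq_pow_val]
  exact R.pow_mem h _

/-- `ℤ[s] = L` -/
theorem gn_iff (s : L) : Gn s ↔ ∀ R : Subring L, s ∈ R → R = ⊤ := by
  constructor
  · intro h R hs
    rw [eq_top_iff]
    intro y _
    exact h R.toAddSubgroup R.one_mem (fun z hz => R.mul_mem hs hz) y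
  · intro h N h1 hN y
    have e := h (Subring.closure {s}) (Subring.subset_closure rfl)
    have hm : ∀ z ∈ Subring.closure ({s} : Set L), ∀ n ∈ N, z * n ∈ N := by
      intro z hz
      induction hz using Subring.closure_induction with
      | mem z hz => rw [Set.mem_singleton_iff] at hz; subst hz; exact hN
      | zero => intro n _; rw [zero_mul]; exact N.zero_mem
      | one => intro n hn; rwa [one_mul]
      | add a b _ _ ha hb => intro n hn; rw [add_mul]; exact N.add_mem (ha n hn) (hb n hn)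
      | neg a _ ha => intro n hn; rw [neg_mul]; exact N.neg_mem (ha n hn)
      | mul a b _ _ ha hb => intro n hn; rw [mul_assoc]; exact ha _ (hb n hn)
    have := hm y (by rw [e]; trivial) 1 h1
    rwa [mul_one] at this

end Ring

section Frame

variable {L A : Type} [CommRing L] [Group A] (Q : Fr L A)

/-- the ring `ℤ[Ŝ(u)]` -/
def Mr (u : Lˣ) : Subring L := Subring.closure {c | ∃ σ : Lˣ, Q.S u σ ∧ (σ : L) = c}

theorem mem_Mr {u σ : Lˣ} (h : Q.S u σ) : (σ : L) ∈ Mr Q u :=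
  Subring.subset_closure ⟨σ, h, rfl⟩

/-- `y` and `1 - y` are in `U` -/
def Gd (y : Lˣ) : Prop := y ∈ Q.U ∧ Q.In (1 - (y : L))

theorem in_val {y : Lˣ} (h : y ∈ Q.U) : Q.In (y : L) := ⟨y, h, rfl⟩

theorem in_iff {y : Lˣ} : Q.In (y : L) ↔ y ∈ Q.U := by
  constructor
  · rintro ⟨u, hu, e⟩
    rwa [← Units.ext e]
  · exact in_val Q

theorem in_mul {a b : L} (ha : Q.In a) (hb : Q.In b) : Q.In (a * b) := by
  obtain ⟨u, hu, rfl⟩ := ha
  obtain ⟨v, hv, rfl⟩ := hb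
  exact ⟨u * v, Q.U.mul_mem hu hv, by simp⟩

theorem in_neg {a : L} (ha : Q.In a) : Q.In (-a) := by
  obtain ⟨u, hu, rfl⟩ := ha
  refine ⟨-1 * u, Q.U.mul_mem Q.neg hu, by simp⟩

theorem in_isUnit {a : L} (ha : Q.In a) : IsUnit a := by
  obtain ⟨u, _, rfl⟩ := ha
  exact u.isUnit

/-- cancellation: `c` and `c a` in `U` imply `a` in `U` -/
theorem in_cancel {a c : L} (hc : Q.In c) (h : Q.In (c * a)) : Q.In a := by
  obtain ⟨u, hu, rfl⟩ := hc
  obtain ⟨v, hv, e⟩ := h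
  refine ⟨u⁻¹ * v, Q.U.mul_mem (Q.U.inv_mem hu) hv, ?_⟩
  rw [Units.val_mul, e, Units.inv_mul_cancel_left]

theorem neg_mem {y : Lˣ} (h : y ∈ Q.U) : -y ∈ Q.U := by
  have := Q.U.mul_mem Q.neg h
  rwa [neg_one_mul] at this

theorem Gd.inv {y : Lˣ} (h : Gd Q y) : Gd Q y⁻¹ := by
  refine ⟨Q.U.inv_mem h.1, ?_⟩
  apply in_cancel Q (in_neg Q (in_val Q h.1))
  have e : -(y : L) * (1 - ((y⁻¹ : Lˣ) : L)) = 1 - (y : L) := by
    have := y.mul_inv
    linear_combination this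
  rw [e]
  exact h.2

theorem Gd.one_sub {y u : Lˣ} (h : Gd Q y) (e : (u : L) = 1 - (y : L)) : Gd Q u := by
  constructor
  · rw [← in_iff Q, e]; exact h.2
  · rw [e, sub_sub_cancel]; exact in_val Q h.1

end Frame

/-! ### The rules -/

/-- (SS) `y ∈ Ŝ(1/(1-y))` -/
def StSS : Prop :=
  ∀ (L A : Type) [CommRing L] [Group A] (Q : Fr L A) (y u : Lˣ), y ∈ Q.U →
    (u : L) * (1 - (y : L)) = 1 → Q.S u y

/-- (CM) combination -/
def StCM : Prop :=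
  ∀ (L A : Type) [CommRing L] [Group A] (Q : Fr L A) (u s s' : Lˣ), Q.S u s → Q.S u⁻¹ s' →
    IsUnit (1 - (s : L)) → IsUnit (1 - (s' : L)) → Mr Q u = ⊤ → u ∈ Q.U

/-- (GP) G-property -/
def StGP : Prop :=
  ∀ (L A : Type) [CommRing L] [Group A] (Q : Fr L A) (y u T : Lˣ), Finite L → y ∈ Q.U →
    (u : L) * (1 - (y : L)) = 1 → Gd Q T → Gd Q (y * T) → (T : L) ∈ Mr Q u

/-- (GR) G-rule -/
def StGR : Prop :=
  ∀ (L A : Type) [CommRing L] [Group A] (Q : Fr L A) (y u σ : Lˣ), y ∈ Q.U →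
    (u : L) * (1 - (y : L)) = 1 → Q.S u σ → Gd Q σ → Mr Q u = ⊤ → Gd Q y

theorem hSS (h1 : StP1) : StSS := by
  intro L A _ _ Q y u hy hu
  refine h1 L A Q u y (-1) hy Q.neg ?_
  rw [Units.val_neg, Units.val_one]
  linear_combination hu

theorem hCM (h1 : Pool.Agent.Helper50.AY.StCMB2) : StCM := by
  intro L A _ _ Q u s s' hs hs' i1 i2 hM
  refine h1 L A Q u s s' hs hs' (i1.mul i2) ?_
  intro N hN1 hN y
  have hm : ∀ z ∈ Mr Q u, ∀ n ∈ N, z * n ∈ N := by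
    intro z hz
    induction hz using Subring.closure_induction with
    | mem z hz => obtain ⟨σ, hσ, rfl⟩ := hz; exact hN σ hσ
    | zero => intro n _; rw [zero_mul]; exact N.zero_mem
    | one => intro n hn; rwa [one_mul]
    | add a b _ _ ha hb => intro n hn; rw [add_mul]; exact N.add_mem (ha n hn) (hb n hn)
    | neg a _ ha => intro n hn; rw [neg_mul]; exact N.neg_mem (ha n hn)
    | mul a b _ _ ha hb => intro n hn; rw [mul_assoc]; exact ha _ (hb n hn)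
  have := hm y (by rw [hM]; trivial) 1 hN1
  rwa [mul_one] at this

theorem hGR (h2 : StP2) (h3 : StCM) : StGR := by
  intro L A _ _ Q y u σ hy hu hσ hg hM
  obtain ⟨c, hc, ec⟩ := hg.2
  have e : ((c⁻¹ * u⁻¹ : Lˣ) : L) * ((1 - (σ : L)) * (u : L)) = 1 := by
    have e0 : (c⁻¹ * u⁻¹) * (c * u) = 1 := by
      rw [mul_comm c u, mul_assoc, ← mul_assoc u⁻¹, inv_mul_cancel, one_mul, inv_mul_cancel]
    rw [← ec, ← Units.val_mul, ← Units.val_mul, e0, Units.val_one]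
  have h := (h2 L A Q u σ (c⁻¹ * u⁻¹) hg.1 e).1 hσ
  rw [Q.S_smul_iff (Q.U.inv_mem hc)] at h
  have hu' := h3 L A Q u σ σ hσ h (in_isUnit Q hg.2) (in_isUnit Q hg.2) hM
  refine ⟨hy, ⟨u⁻¹, Q.U.inv_mem hu', ?_⟩⟩
  have := u.inv_mul_cancel_left (1 - (y : L))
  rw [hu, mul_one] at this
  exact this

theorem hGP (h1 : StP1) (hs : StSS) : StGP := by
  intro L A _ _ Q y u T hL hy hu hT hyT
  obtain ⟨c, hc, ec⟩ := hT.2
  obtain ⟨d, hd, ed⟩ := hyT.2
  rw [Units.val_mul] at ed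
  have hdd : (d : L) * ((d⁻¹ : Lˣ) : L) = 1 := d.mul_inv
  -- `ρ = c / d`
  have hρ : Q.S u (c * d⁻¹) := by
    refine h1 L A Q u (c * d⁻¹) (-(T * d⁻¹)) (Q.U.mul_mem hc (Q.U.inv_mem hd))
      (neg_mem Q (Q.U.mul_mem hT.1 (Q.U.inv_mem hd))) ?_
    rw [Units.val_neg, Units.val_mul, Units.val_mul]
    -- `-(T/d) = (c/d - 1) u`
    have : ((c : L) * ((d⁻¹ : Lˣ) : L) - 1) = -((T : L) * (1 - (y : L))) * ((d⁻¹ : Lˣ) : L) := by
      have e1 : (1 : L) = (d : L) * ((d⁻¹ : Lˣ) : L) := hdd.symm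
      calc ((c : L) * ((d⁻¹ : Lˣ) : L) - 1) = ((c : L) - (d : L)) * ((d⁻¹ : Lˣ) : L) := by
            rw [sub_mul, ← e1]
        _ = _ := by rw [ec, ed]; ring
    rw [this]
    linear_combination ((T : L) * ((d⁻¹ : Lˣ) : L)) * hu
  have hy' : Q.S u y := hs L A Q y u hy hu
  have m1 := mem_Mr Q hρ
  have m2 := mem_Mr Q hy'
  -- `1 - ρ y = (1-y)/d`, `1 - ρ = T (1-y)/d`
  have hu1 : IsUnit (1 - (y : L)) := by
    rw [isUnit_iff_exists_inv']
    exact ⟨u, hu⟩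
  have f1 : 1 - ((c * d⁻¹ : Lˣ) : L) * (y : L) = (1 - (y : L)) * ((d⁻¹ : Lˣ) : L) := by
    rw [Units.val_mul]
    calc 1 - (c : L) * ((d⁻¹ : Lˣ) : L) * (y : L)
        = ((d : L) - (c : L) * (y : L)) * ((d⁻¹ : Lˣ) : L) := by rw [sub_mul, hdd]; ring
      _ = _ := by rw [ec, ed]; ring
  have f2 : 1 - ((c * d⁻¹ : Lˣ) : L) = (T : L) * ((1 - (y : L)) * ((d⁻¹ : Lˣ) : L)) := by
    rw [Units.val_mul]
    calc 1 - (c : L) * ((d⁻¹ : Lˣ) : L)
        = ((d : L) - (c : L)) * ((d⁻¹ : Lˣ) : L) := by rw [sub_mul, hdd]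
      _ = _ := by rw [ec, ed]; ring
  obtain ⟨g, hg⟩ := hu1.mul d⁻¹.isUnit
  have m3 : (g : L) ∈ Mr Q u := by
    rw [hg, ← f1]
    exact (Mr Q u).sub_mem (Mr Q u).one_mem ((Mr Q u).mul_mem m1 m2)
  have m4 := inv_mem (Mr Q u) g m3
  have m5 : (T : L) * (g : L) ∈ Mr Q u := by
    rw [hg, ← f2]
    exact (Mr Q u).sub_mem (Mr Q u).one_mem m1
  have := (Mr Q u).mul_mem m5 m4
  rwa [Units.mul_inv_cancel_right] at this

end Pool.Agent.Helper48.OD
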