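import Pool.Agent.Helper48.OD.All
import Pool.Agent.Helper50.BP.St

/-! Project OD / BP (MP_b3ce06_al): the finiteness statements in the form used by project BP. -/

set_option autoImplicit false

namespace Pool.Agent.Helper48.OD

open Pool.Agent.Helper43.GD Pool.Agent.Helper50.BP

theorem finO : ∀ l k h r : ℕ, ClO l k h r → FinR l k h := by
  intro l k h r hC L _ x hfin hgn hx htri
  exact pFO l k h r L x
    { h1 := hC.h1
      rp := hC.pr
      ro := hC.pr.odd_of_ne_two hC.odd
      rk := hC.rk
      gc := hC.g
      fin := hfin
      gn := hgn
      xh := hx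
      tri := htri }

theorem finE : ∀ l k h a : ℕ, ClE l k h a → FinR l k h := by
  intro l k h a hC L _ x hfin hgn hx htri
  exact pFE l k h a L x
    { h1 := hC.h1
      a3 := hC.a3
      ko := Nat.odd_iff.2 hC.kodd
      ak := hC.rk
      ah := hC.two
      gc := hC.g
      fin := hfin
      gn := hgn
      xh := hx
      tri := htri }

end Pool.Agent.Helper48.OD
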