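import Pool.Agent.Helper48.OD.Defs
import Pool.Agent.Helper46.C2.St

/-!
PROJECT OD (MP_b3ce06_al, Q1: which simple groups are composition factors of finite groups of deficiency
zero).  THEOREM (with helper39, 70, 73, 50, 46): for EVERY prime power `q ≥ 4` the group `PSL(2,q)` is a
composition factor of a finite group of deficiency zero.  This file is PART II for odd `q`: finiteness of
all groups with a system over `L = ℤ[x]` (finite, `x^h = -1`, `x^l + x^k = 1`) for which `1` and `x` are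
Weyl units: classes O (`v = x^k` of odd prime order `r`) and E (`v = x^k` of order `2^a`, `a ≥ 3`).
Final statements: StFO, StFE.

Notation: project GD, `Pool/Agent/Helper43/GD/Defs.lean` (`Sys`, `om`, `Weyl`, `Fr`, `Q.U`, `Q.h`, `Q.w`,
`Q.In`, `Q.S u σ` for `σ ∈ Ŝ(u)`, `Gn`, `FinP`, `IsHat`), and `Defs.lean` of this directory (READ IT:
`Ev y`: `-1` is a power of `y` (even); `Od y`: odd order; `Tw y`: order a power of 2; `UI H`: no involution in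
`H` except `-1`; `Gd Q y` (Good): `y ∈ U` and `1 - y ∈ U`; `Mr Q u` = the subring generated by `Ŝ(u)`; and
many PROVED lemmas: `decomp`, `Od.eq_pow`, `Ev.mul_od`, `Ev.not_od`, `UI.ev_of_tw`, `UI.ev_or_od`,
`Ev.isUnit`, `Od.isUnit_add`, `inv_mem`, `gn_iff`, `in_mul`, `in_neg`, `in_cancel`, `in_iff`, `neg_mem`,
`Gd.inv`, `Gd.one_sub`, `mem_Mr`).  The rules StSS, StCM, StGP, StGR of Defs.lean are proved there (from
StP1, StP2, AY.StCMB2); take them as hypotheses.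

All modules are INDEPENDENT (the statements they use are hypotheses: prove
`theorem hXX (h1 : StYY) ... : StXX`).  In a module file: `import Pool.Agent.Helper48.OD.St`.

Rules.  SS: `y ∈ U`, `u(1-y) = 1` ⟹ `S u y`.  GP: if moreover `T`, `yT` are Good then `T ∈ Mr Q u`.
GR: if `S u σ`, `σ` Good, `Mr Q u = ⊤` then `y` is Good.  CM: `S u s`, `S u⁻¹ s'`, `1-s`, `1-s'` units,
`Mr Q u = ⊤` ⟹ `u ∈ U`.  P1: `σ ∈ U`, `(σ-1)u ∈ U` ⟹ `S u σ`.  P2: `v (1-σ) u = 1` ⟹ (`S u σ ⟺ S v σ`).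
`Fr.S_smul_iff`: `S (τu) σ ⟺ S u σ` for `τ ∈ U`; `Fr.S_pow`, `Fr.S_mul`, `Fr.S_inv`.
`Gn s` (`ℤ[s] = L`) is used in the form `gn_iff`: a subring containing `s` is `⊤`.
-/

set_option autoImplicit false

namespace Pool.Agent.Helper48.OD

open Pool.Agent.Helper43.GD

/-! ### Classes of rings -/

/-- class O -/
structure RO (l k h r : ℕ) (L : Type) [CommRing L] (x : Lˣ) : Prop where
  h1 : 1 ≤ h
  rp : r.Prime
  ro : Odd r
  rk : 2 * h ∣ r * k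
  gc : Nat.gcd (Nat.gcd k l) h = 1
  fin : Finite L
  gn : Gn (x : L)
  xh : (x : L) ^ h = -1
  tri : (x : L) ^ l + (x : L) ^ k = 1

/-- class E -/
structure RE (l k h a : ℕ) (L : Type) [CommRing L] (x : Lˣ) : Prop where
  h1 : 1 ≤ h
  a3 : 3 ≤ a
  ko : Odd k
  ak : 2 * h ∣ 2 ^ a * k
  ah : 2 ^ a ∣ 2 * h
  gc : Nat.gcd (Nat.gcd k l) h = 1
  fin : Finite L
  gn : Gn (x : L)
  xh : (x : L) ^ h = -1
  tri : (x : L) ^ l + (x : L) ^ k = 1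

/-- the image of a unit in `L ⧸ I` -/
def qx {L : Type} [CommRing L] (I : Ideal L) (x : Lˣ) : (L ⧸ I)ˣ :=
  Units.map (Ideal.Quotient.mk I : L →* L ⧸ I) x

/-- MODULE QUO (40 lines).  PROOF.  All conditions pass to the quotient: `Gn`: for an additive subgroup
`N` of `L ⧸ I` take its preimage in `L`.  Equations: apply `Ideal.Quotient.mk I`. -/
def StQUO : Prop :=
  (∀ (l k h r : ℕ) (L : Type) [CommRing L] (x : Lˣ) (I : Ideal L), RO l k h r L x →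
    RO l k h r (L ⧸ I) (qx I x)) ∧
  (∀ (l k h a : ℕ) (L : Type) [CommRing L] (x : Lˣ) (I : Ideal L), RE l k h a L x →
    RE l k h a (L ⧸ I) (qx I x))

/-- MODULE GNV (60 lines, ring theory).  PROOF.  Let `R` be a subring containing `v = x^k` (`gn_iff`).
Then `x^l = 1 - v ∈ R`, `x^h = -1 ∈ R`; the units whose value is in `R` form a subgroup of `Lˣ` (`inv_mem`);
it contains `x^k, x^l, x^h`, hence `x^(αk+βl+γh) = x` for integers with `αk+βl+γh = 1` (Bezout twice).  So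
`x ∈ R`, `R = ⊤`. -/
def StGNV : Prop :=
  ∀ (l k h : ℕ) (L : Type) [CommRing L] (x : Lˣ), Finite L → Nat.gcd (Nat.gcd k l) h = 1 →
    Gn (x : L) → (x : L) ^ h = -1 → (x : L) ^ l + (x : L) ^ k = 1 → Gn ((x ^ k : Lˣ) : L)

/-- frame data of class O: `v` Good of odd order, `ℤ[v] = L` -/
structure FO {L A : Type} [CommRing L] [Group A] (Q : Fr L A) (v : Lˣ) : Prop where
  fin : Finite L
  gd : Gd Q v
  gn : Gn (v : L)
  od : Od v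

/-- MODULE ROV (60 lines, uses GNV).  PROOF.  `v = x^k`: `v^r = x^(rk) = 1` as `x^(2h) = 1`.
`1 - v = x^l ∈ U`.  Second claim (`x² - 1` is a unit): `x² - 1` divides `x^(2k) - 1 = v² - 1 =
-(1-v)(1+v)`; `1 - v = x^l` is a unit and `1 + v` too (`Od.isUnit_add`). -/
def StROV : Prop :=
  (∀ (l k h r : ℕ) (L A : Type) [CommRing L] [Group A] (Q : Fr L A) (x : Lˣ), RO l k h r L x →
    x ∈ Q.U → FO Q (x ^ k)) ∧
  (∀ (l k h r : ℕ) (L : Type) [CommRing L] (x : Lˣ), RO l k h r L x →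
    Pool.Agent.Helper50.AY.Rf L x)

/-! ### Class O: first elements -/

/-- MODULE NV (60 lines, uses GD.StP1 GD.StP2 CM).  PROOF.  `1 + v` is a unit (`Od.isUnit_add`), let
`c : Lˣ` be `1 + v`, `d ∈ U` with `d = 1 - v`.  `u = (c d)⁻¹ = 1/(1-v²)`.  P1: `S u (v²)` (`(v²-1)u = -1`);
`v = (v²)^n` (`Od.eq_pow 1`), so `S u v`.  `u = d⁻¹ c⁻¹`, so `S c⁻¹ v` (`Fr.S_smul_iff`).  P2 for `u`, `σ = v`:
`c (1-v) u = 1`, so `S c v`.  CM for `c`: `s = s' = v`, `Mr Q c = ⊤` as `v ∈ Mr Q c` and `Gn v`.  So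
`c ∈ U`. -/
def StNV : Prop :=
  ∀ (L A : Type) [CommRing L] [Group A] (Q : Fr L A) (v : Lˣ), FO Q v → Q.In (1 + (v : L))

/-- MODULE UP (50 lines, uses SS GR).  PROOF.  (1) `v = y^m`, `Gd v`, `Gn v`: `1 - y` divides `1 - v`
(`one_sub_dvd_one_sub_pow`), so it is a unit, `u = 1/(1-y)`; SS: `S u y`, so `S u v`; `v ∈ Mr Q u`, so
`Mr Q u = ⊤`; GR: `Gd Q y`.  (2) `y = ζ v`, `ζ^(2^s) = 1`: `y^(2^s) = v^(2^s)` and `v` is a power of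
it (`Od.eq_pow`). -/
def StUP : Prop :=
  (∀ (L A : Type) [CommRing L] [Group A] (Q : Fr L A) (v y : Lˣ) (m : ℕ), Gd Q v → Gn (v : L) →
    y ∈ Q.U → y ^ m = v → Gd Q y) ∧
  (∀ (L A : Type) [CommRing L] [Group A] (Q : Fr L A) (v ζ : Lˣ), FO Q v → ζ ∈ Q.U → Tw ζ →
    Gd Q (ζ * v))

/-- MODULE TWO (110 lines, uses GD.StP1 GD.StP2 CM NV).  PROOF.  `t : Lˣ` with `t = 2`, `u = t⁻¹`.
`D ∈ U` with `D (1-v) = 1+v` (NV, `Gd v`).  `1 - D = -2v/(1-v)`, `1 + D = 2/(1-v)`: units.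
P1: `S u D` (`(D-1)u = v/(1-v) ∈ U`), and `S (u²) (D²)` (`(D²-1)u² = v/(1-v)² ∈ U`).
`Mr Q u = ⊤`: it contains `D`, the unit `D+1 = 2/(1-v)`, its inverse `(1-v)/2`, and `(D-1)(1-v)/2 = v`;
`Gn v`.
`D² ∈ U` is even or odd (`UI.ev_or_od`).  (a) even: `-1 = (D²)^m`, `S (u²) (-1)`; P2 for `u²`, `σ = -1`:
`t·(1-(-1))·u² = 1`, so `S t (-1)`, `t = u⁻¹`.  CM for `u`: `s = D`, `s' = -1`.
(b) odd, `D` odd: `D = (D²)^n`, `S (u²) D`; P2, `σ = D`: `(τ t)(1-D)u² = 1` with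
`τ = -(1-v)/v ∈ U`; so `S t D`.  CM: `s = s' = D`.
(c) `D²` odd, `D` even: `(D²)^n = 1`, `n` odd, `(D^n)² = 1`, so `D^n = ±1` (UI), `D^n ≠ 1` (`Ev.not_od`,
`-1 ≠ 1` as `2` is a unit of the nontrivial ring), so `σ = -D` is odd, `σ² = D²`, `S (u²) σ`; P2:
`(τ t)(1+D)u² = 1` with `τ = 1-v`; `S t σ`.  CM: `s = D`, `s' = σ` (`1-σ = 1+D`).
In all cases `u ∈ U`, `2 = u⁻¹ ∈ U`. -/
def StTWO : Prop :=
  ∀ (L A : Type) [CommRing L] [Group A] (Q : Fr L A) (v : Lˣ), FO Q v → Nontrivial L →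
    IsUnit (2 : L) → UI Q.U → Q.In (2 : L)

/-! ### Splitting by an involution -/

/-- MODULE INV (120 lines, uses AY.StSPL).  PROOF.  `4ε² = (1+ι)² = 4ε`, so `ε² = ε`;
`ε(1-ι) = 0`, `(1-ε)(1+ι) = 0` (multiply by 2).  `τ ∈ U` with `τ (1-x) = 1 - ιx`; `ετ = ε`;
`D : L`, `D (1-x) = 1+x`: `(1-ε)τ = (1-ε)D`.  SPL with `z = ι`, `N = 2` (`1+ι = 2ε`, `ι-1 = -2(1-ε)`), and
`a τ^(-j)` in place of `a`: for all `a ∈ U`, `j : ℕ`: `E(2εa)` commutes with `F(-2(1-ε)D^j a⁻¹)`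
(`ετ^(-j) = ε`, `(1-ε)τ^j = (1-ε)D^j`).  Fix `a`: `{c | E(2εa) commutes with F((1-ε)(c a⁻¹))}` is an
additive subgroup and contains `-2D^j`.  The additive span of the `D^j` is the subring generated by `D`; it
contains `D+1 = 2/(1-x)`, a unit, so its inverse `(1-x)/2` (`inv_mem`), and `(D-1)(1-x)/2 = x`; so it
is `L` (`gn_iff`).  As `2` is a unit: `E(2εa)` commutes with all `F((1-ε)b)`.  Then
`{c | ∀ b, E(εc) commutes with F((1-ε)b)}` is an additive subgroup containing `2x^n`; the span of the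
`x^n` is `L`, `2` is a unit. -/
def StINV : Prop :=
  ∀ (L A : Type) [CommRing L] [Group A] (Q : Fr L A) (x ι : Lˣ) (ε : L), Finite L →
    IsUnit (2 : L) → Gn (x : L) → Gd Q x → Gd Q (ι * x) → ι ∈ Q.U → ι ^ 2 = 1 →
    2 * ε = 1 + (ι : L) →
    ∀ a b : L, Q.E (ε * a) * Q.F ((1 - ε) * b) = Q.F ((1 - ε) * b) * Q.E (ε * a)

/-! ### Mixed characteristics: splitting off the part where `2` is nilpotent (class O) -/

/-- MODULE IDP (60 lines, ring theory).  PROOF.  `L` is finite: `2^p = 2^(p+q)`, `q ≥ 1`; a multiple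
`j ≥ max(p,1)` of `q` gives `2^(2j) = 2^j`.  `f = 2^j`, `e = 1 - f`, `g = 2^(j-1)`.  `2^j e = f(1-f) = 0`.
`Nat.card L = 2^t m`, `m` odd, is zero in `L`: `m f = m f^(t+1) = 2^(jt) m f` and `jt ≥ t`, so it is
`0`. -/
def StIDP : Prop :=
  ∀ (L : Type) [CommRing L], Finite L → ∃ (e g : L) (j m : ℕ), e * e = e ∧ (2 : L) ^ j * e = 0 ∧
    Odd m ∧ (m : L) * (1 - e) = 0 ∧ 2 * g = 1 - e ∧ (e = 0 → IsUnit (2 : L)) ∧
    (e = 1 → IsNilpotent (2 : L))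

/-- MODULE MXP (150 lines, uses UP).  PROOF.  Suppose not.  `K = L ⧸ P` is a finite field, `2 ≠ 0` in `K`.  Let
`M ⊂ Kˣ` be the image of the group `{ζ ∈ U : Tw ζ}`; a finite 2-group (each element has order a power
of 2, `IsPGroup.iff_card`), containing `-1`.  For `ζ ∈ U`, `Tw ζ`: by UP(2) there is `D ∈ U` with
`D(1-v) = 1-ζv`, and by assumption `D^(2^s) ≡ 1 mod P` for some `s`.  `decomp D`: `D = D^i D^j`, `D^i` of
2-power order, `D^j` of odd order `m`; `(D^j)^(2^s) ≡ 1` and `(D^j)^m = 1`, so `D^j ≡ 1 mod P`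
(`Od.eq_pow`), and `D ≡ D^i mod P` is in `M`.  So `φ(μ) = (1 - μ v̄)/(1 - v̄)` maps `M` to `M`; it is
injective (`v̄ ≠ 0`), hence bijective.  `Σ_(μ ∈ M) μ = 0` (multiplication by `-1 ∈ M` permutes `M`, and `2 ≠ 0`).
So `0 = Σ φ(μ) = (|M| - v̄ Σ μ)/(1 - v̄) = |M|/(1-v̄)`: `|M| = 0` in `K`, but `|M|` is a power of 2,
contradiction. -/
def StMXP : Prop :=
  ∀ (L A : Type) [CommRing L] [Group A] (Q : Fr L A) (v : Lˣ), FO Q v → ∀ P : Ideal L,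
    P.IsMaximal → (2 : L) ∉ P → ∃ ζ ∈ Q.U, Tw ζ ∧ ∀ (D : Lˣ) (s : ℕ),
      (D : L) * (1 - (v : L)) = 1 - (ζ : L) * v → (D : L) ^ (2 ^ s) - 1 ∉ P

/-- MODULE MXZ (90 lines, ring theory).  PROOF.  (1) `(ζ-1)e` is nilpotent: `(ζ-1)^(2^t) - (ζ^(2^t) - 1) ∈ 2L`
(`add_pow_two_pow`-type induction, or `add_pow_char_pow` in `L/2L`), so `((ζ-1)^(2^t))^j e ∈ 2^j e L = 0`.
(2) `(D-1)(1-v) = v(1-ζ)`, so `(D-1)e`, and `(z-1)e`, `z = D^(2^s)` (`D - 1 ∣ z - 1`), are nilpotent.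
(3) `z^N = 1`, `N = 1 + 2c`; `0 = z^N - 1 = (z-1) Σ_(i<N) z^i` and `Σ_(i<N) z^i = N + (z-1)q` for some
`q`; with `y = (z-1)e = ye`: `0 = y (1 + 2ec + (z-1)e q)`; `2ec` and `(z-1)eq` are nilpotent, so the
bracket is a unit: `y = 0`. -/
def StMXZ : Prop :=
  ∀ (L : Type) [CommRing L] (v ζ D : Lˣ) (e : L) (j s : ℕ), IsUnit (1 - (v : L)) → e * e = e →
    (2 : L) ^ j * e = 0 → Tw ζ → (D : L) * (1 - (v : L)) = 1 - (ζ : L) * v → Od (D ^ (2 ^ s)) →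
    (((D : L) ^ (2 ^ s)) - 1) * e = 0

/-- MODULE MXS (150 lines, uses AY.StSPL NV).  PROOF.  Write `X ↔ Y` for commute.
(1) `z^N = 1`, `N` odd, `s = Σ_(i<N) z^i`.  Choose `c : ℕ` with `c (m N) ≡ 1 mod 2^j`, `M = m c`.
`M s = M s e + M s (1-e) = M N e + 0 = e` (`ze = e`, so `se = Ne`; `m(1-e) = 0`; `2^j e = 0`).
SPL: `E(a s) ↔ F((z-1)a⁻¹)`; `E(a e) = E(a s)^M` (`Eadd`), so (*) `E(a e) ↔ F((z-1)a⁻¹)` for all `a ∈ U`.
(2) `D ∈ U`, `D(1-v) = 1+v` (NV).  `D⁻¹ = 1 - 2v/(1+v)`, so `D^(-n) = 1 + 2w_n`, `w_n ∈ L`.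
(3) Claim `C(i)`: `E(2^i e a) ↔ F((z-1)b)` for all `a, b ∈ L`.  `C(j)` is clear (`2^j e = 0`).
`C(i+1) ⟹ C(i)`: (*) for `a D^(-n)` and the `2^i`-th power: `E(2^i e a D^(-n)) ↔ F((z-1)D^n a⁻¹)`;
`E(2^i e a D^(-n)) = E(2^i e a) E(2^(i+1) e a w_n)` and the second factor commutes with `F((z-1)D^n a⁻¹)` by
`C(i+1)`; so `E(2^i e a) ↔ F((z-1)D^n a⁻¹)` for `a ∈ U`, `n : ℕ`.
(4) `R` = subring generated by `D` = additive span of the `D^n`.  For every `c ∈ L` there is `r ∈ R` with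
`(z-1)c = (z-1)r`: the `c` with this property form a subring containing `D`; it contains `v`:
`(1-e)(D+1)·(g(1-v)) = (1-e)2g = 1-e` (`(D+1)(1-v) = 2`), so `(1-e)(D+1)^n = 1-e` for some `n ≥ 1` (finiteness),
and `(z-1)v = (z-1)(1-e)(D+1)^n v = (z-1)(D+1)^(n-1)(D-1)` (`(D+1)v = D-1`).  `Gn v`.
(5) For fixed `a ∈ U` the set `{c | E(2^i e a) ↔ F((z-1)c a⁻¹)}` is an additive subgroup containing `R`, so
by (4) it is `L`.  Then `{a | ∀ b, E(2^i e a) ↔ F((z-1)b)}` is an additive subgroup containing `v^n`, so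
it is `L`.  `C(0)` is the claim. -/
def StMXS : Prop :=
  ∀ (L A : Type) [CommRing L] [Group A] (Q : Fr L A) (v z : Lˣ) (e g : L) (j m : ℕ), FO Q v →
    e * e = e → (2 : L) ^ j * e = 0 → Odd m → (m : L) * (1 - e) = 0 → 2 * g = 1 - e →
    z ∈ Q.U → Od z → ((z : L) - 1) * e = 0 →
    ∀ a b : L, Q.E (e * a) * Q.F (((z : L) - 1) * b) = Q.F (((z : L) - 1) * b) * Q.E (e * a)

/-- MODULE MXA (100 lines, uses UP MXP MXZ MXS).  PROOF.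
`I = {c | ∀ a b, E(ea) ↔ F(cb)}` is an ideal.  For `ζ ∈ U`, `Tw ζ`: `D ∈ U` with `D(1-v) = 1-ζv` (UP(2)); some
`s` with `D^(2^s)` odd (`decomp`: `D = D^i D^j`, `(D^i)^(2^s) = 1`); MXZ, MXS: `D^(2^s) - 1 ∈ I`.
Claim `I ⊔ (e) = ⊤`: otherwise it is contained in a maximal ideal `P`; `e ∈ P`, so `2g = 1-e ∉ P`, `2 ∉ P`;
MXP gives `ζ` with `D^(2^s) - 1 ∉ P` for all `s`, contradiction.  So `1 = c + de`, `c ∈ I`,
`1-e = (1-e)c ∈ I`: first claim.  Second claim: conjugate the first by `w` (`Q.w_E`, `Q.w_F`, with `-a, -b`). -/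
def StMXA : Prop :=
  ∀ (L A : Type) [CommRing L] [Group A] (Q : Fr L A) (v : Lˣ) (e g : L) (j m : ℕ), FO Q v →
    e * e = e → (2 : L) ^ j * e = 0 → Odd m → (m : L) * (1 - e) = 0 → 2 * g = 1 - e →
    (∀ a b : L, Q.E (e * a) * Q.F ((1 - e) * b) = Q.F ((1 - e) * b) * Q.E (e * a)) ∧
    (∀ a b : L, Q.E ((1 - e) * a) * Q.F (e * b) = Q.F (e * b) * Q.E ((1 - e) * a))

/-! ### Characteristic two (class O) -/

/-- MODULE BIN (20 lines).  PROOF.  Induction on `f`.  `f = 0`: `x² + y² + 2xy`.  Step: square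
`A + B + 2C + 4w` (`A = x^(2^(f+1))`, `B = y^(2^(f+1))`, `AB = (xy)^(2^(f+1))`). -/
def StBIN : Prop :=
  ∀ (L : Type) [CommRing L] (x y : L) (f : ℕ), ∃ w : L,
    (x + y) ^ (2 ^ (f + 1)) = x ^ (2 ^ (f + 1)) + y ^ (2 ^ (f + 1)) + 2 * (x * y) ^ (2 ^ f) + 4 * w

/-- MODULE CHT (160 lines, uses BIN).  PROOF.  `2h = 2^a b`, `b` odd, `a ≥ 1`.  Choose `f` with `f + 1 ≥ a` and
`b ∣ 2^(f+1) - 1` (e.g. `f + 1 = a · φ(b)`, Euler).  `2^a ∣ k` (`2^a ∣ r k`, `r` odd).  `v = x^k`: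
`v^(2^(f+1)) = v` (`2h ∣ k(2^(f+1) - 1)`).  `B = (x^l)^(2^(f+1))`, `C = (x^l x^k)^(2^f)`, `C² = B v`.
BIN: `1 = v + B + 2C + 4w`, so `x^l = 1 - v = B + 2C + 4w`.  `B` is a unit;
`ζ := x^l/B = 1 + 2s`, `s = (C+2w)/B`; `ζ = x^(l(1-2^(f+1)))`, `2^(f+1) - 1 = b m'`, `m'` odd.
Claim `2 = 0`.  It is enough: `2 = 4t` for some `t` (`2(1-2t) = 0`, `1-2t` is a unit), or `2y = 0` for a
unit `y`.
`h` even (`a ≥ 2`): `k` even, `gcd(k,l,h) = 1`, so `l` is odd.  `ζ^(2^(a-1)) = x^(-l m' h) = (-1)^(l m') = -1`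
(`2^(a-1) b = h`).  `ζ² = 1 + 4(s+s²)`, so `-1 = (ζ²)^(2^(a-2)) ≡ 1 mod 4L`, `2 ∈ 4L`.
`h` odd (`a = 1`, `b = h`): `ζ = x^(-l m' h) = (-1)^l`.  `l` even: `2s = 0`; `C` is a unit, `2w` nilpotent, so
`s` is a unit.  `l` odd: `1 + 2s = -1`, `2(1+s) = 0`, and `B(1+s) = B + C + 2w` is a unit: its square is
`B² + C² + 2(..) = B(B + v) + 2(..) = B (1 - 2C - 4w) + 2(..) = B + 2(..)`.
Now `2 = 0`: `x^l = B`, i.e. `(x^l)^(2^(f+1)) = x^l`. -/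
def StCHT : Prop :=
  ∀ (l k h r : ℕ) (L : Type) [CommRing L] (x : Lˣ), RO l k h r L x → IsNilpotent (2 : L) →
    (2 : L) = 0 ∧ ∃ f : ℕ, (x ^ k) ^ (2 ^ (f + 1)) = x ^ k ∧ (x ^ l) ^ (2 ^ (f + 1)) = x ^ l

/-- MODULE CHV (120 lines, uses CHT GNV).  `R2 j L y`: `2 ≤ j`, `2 = 0`, `y^j = y + 1`, `Gn y`.
PROOF.  Nontrivial `L`.  `v = x^k`, `v' = x^l`, `v + v' = 1`, `2 = 0`.  `v^r = 1` (`2h ∣ rk`), `v ≠ 1` (`v'` is a unit),
so `orderOf v = r`.  `N = orderOf v'`, it is odd (`v'^(2^(f+1)) = v'`, so `N ∣ 2^(f+1) - 1`).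
(i) `r ∣ N`: `x` generates a cyclic group containing `v, v'`; in a cyclic group `v ∈ ⟨v'⟩` when `orderOf v ∣
orderOf v'` (e.g. the subgroups `⟨v⟩`, `⟨v'^(N/r)⟩` of order `r` coincide: `IsCyclic.card_pow_eq_one_le`,
or exponents).  `v = v'^j`, so `v'^j = v' + 1`; `y = v'`.  (ii) `r ∤ N`: `y = v'/v`, `y + 1 = (v'+v)/v = v⁻¹`;
`v` is a power of `y`: `y^N = v^(-N)` and `N` is prime to `r`; so `v⁻¹ = y^j`.  In both cases
`Gn y`: a subring containing `y` contains the power `v` or `v⁻¹`, so `v` (`inv_mem`), `Gn v` (GNV).  `j`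
can be enlarged by the order of `y`, so `2 ≤ j`.  `y^(2^(f+1)) = y`, and `y = x^c` for some `c : ℕ` (`x` has
finite order), so `y = x^(2^(f+1) c) = x^(2n)`. -/
def StCHV : Prop :=
  ∀ (l k h r : ℕ) (L : Type) [CommRing L] (x : Lˣ), Nontrivial L → RO l k h r L x →
    IsNilpotent (2 : L) → ∃ j n : ℕ, Pool.Agent.Helper46.C2.R2 j L (x ^ (2 * n))

/-- MODULE FPW (30 lines).  PROOF.  Let `s` be a system with `Weyl 1`, `Weyl x`.  `om(x) om(1)⁻¹` is a torus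
element with parameter `x²` (`Sys.tor_of_weyl`); its `n`-th power has parameter `x^(2n)` (`IsTor.mul`), so
`x^(2n) · 1` is Weyl (`Sys.weyl_tor`). -/
def StFPW : Prop :=
  ∀ (L : Type) [CommRing L] (x : Lˣ) (n : ℕ), FinP L (x ^ (2 * n)) → FinP L x

/-! ### Case B: `2` is a unit, `-1` is the only involution, `2 ∈ U` -/

/-- Case B -/
structure CB (L A : Type) [CommRing L] [Group A] (Q : Fr L A) : Prop where
  fin : Finite L
  nt : Nontrivial L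
  two : IsUnit (2 : L)
  ui : UI Q.U
  in2 : Q.In (2 : L)

/-- MODULE L13 (50 lines, uses SS GP GR).  PROOF.  (1) `y^m = -1`; SS: `S u y`, so `S u (-1)`
(`Fr.S_pow`); `-1` is Good (`1-(-1) = 2 ∈ U`); GR.  (2) `1-y` is a unit (`Ev.isUnit`), `u = 1/(1-y)`;
GP: `t ∈ Mr Q u`, so `Mr Q u = ⊤` (`gn_iff`); (1). -/
def StL13 : Prop :=
  (∀ (L A : Type) [CommRing L] [Group A] (Q : Fr L A) (y u : Lˣ), CB L A Q → y ∈ Q.U → Ev y →
    (u : L) * (1 - (y : L)) = 1 → Mr Q u = ⊤ → Gd Q y) ∧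
  (∀ (L A : Type) [CommRing L] [Group A] (Q : Fr L A) (y t : Lˣ), CB L A Q → y ∈ Q.U → Ev y →
    Gd Q t → Gn (t : L) → Gd Q (y * t) → Gd Q y)

/-- Case B with an element of order 4, a shift `t`, and an even Good generator `ξ`. -/
structure C4 (L A : Type) [CommRing L] [Group A] (Q : Fr L A) : Prop extends CB L A Q where
  th : ∃ θ ∈ Q.U, θ ^ 2 = -1
  z2 : ∀ ζ ∈ Q.U, Tw ζ → ζ ≠ 1 → Gd Q ζ
  sh : ∀ y₁ ∈ Q.U, ∀ y₂ ∈ Q.U, Ev y₁ → Ev y₂ →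
    ∃ t : Lˣ, Gd Q t ∧ Gn (t : L) ∧ Ev (y₁ * t) ∧ Ev (y₂ * t)
  xi : ∃ ξ : Lˣ, Ev ξ ∧ Gd Q ξ ∧ Gn (ξ : L)

/-- MODULE PRD (80 lines, uses GP L13).  PROOF.  Let `y = T₁T₂`, `T = T₁⁻¹`: `T` and `yT = T₂` are Good and
even (`Gd.inv`, `Ev.inv`).  `sh` for `(T, yT)`: `t`.  `Tt` is Good: L13(2) for `Tt` and `t⁻¹` (Good;
`Gn t⁻¹`: `gn_iff`, `inv_mem`).  In the same way `yTt` is Good.  `u = 1/(1-y)` (`Ev.isUnit`).  GP:
`T ∈ Mr Q u` (`T`, `yT` Good) and `Tt ∈ Mr Q u` (`Tt`, `yTt` Good).  So `t = T⁻¹(Tt) ∈ Mr Q u`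
(`inv_mem`), `Mr Q u = ⊤` (`Gn t`), L13(1): `y` is Good. -/
def StPRD : Prop :=
  ∀ (L A : Type) [CommRing L] [Group A] (Q : Fr L A) (T₁ T₂ : Lˣ), C4 L A Q → Gd Q T₁ → Gd Q T₂ →
    Ev T₁ → Ev T₂ → Ev (T₁ * T₂) → Gd Q (T₁ * T₂)

/-- all even elements of `y U₂` are Good (`U₂` = elements of `U` of 2-power order) -/
def K4 {L A : Type} [CommRing L] [Group A] (Q : Fr L A) (y : Lˣ) : Prop :=
  y ∈ Q.U ∧ ∀ ζ ∈ Q.U, Tw ζ → Ev (ζ * y) → Gd Q (ζ * y)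

/-- MODULE KSG (110 lines, uses PRD).  PROOF.  Product: let `ζ y₁ y₂` be even.  Each `y_i = z_i o_i`, `z_i`
of 2-power order, `o_i` odd, `z_i, o_i ∈ U` (`decomp`).  For `ζ'` of 2-power order in `U`: `ζ' y_i` is even
unless `ζ' z_i = 1` (`UI.ev_of_tw`, `Ev.mul_od`).  Among the four different elements `1, θ, -1, -θ` choose `ζ₁`
with `ζ₁ z₁ ≠ 1` and `ζ ζ₁⁻¹ z₂ ≠ 1`.  Then `ζ₁y₁`, `ζζ₁⁻¹y₂` are even, so Good, and PRD: their
product `ζy₁y₂` is Good.  Inverse: `ζ y⁻¹ = (ζ⁻¹ y)⁻¹` (`Ev.inv`, `Gd.inv`).  One and `-1`: by `z2` (if `ζ`, `-ζ` is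
even it is not `1`: `Ev 1` would give `-1 = 1`, but `2` is a unit and `L` is nontrivial). -/
def StKSG : Prop :=
  ∀ (L A : Type) [CommRing L] [Group A] (Q : Fr L A), C4 L A Q → K4 Q 1 ∧ K4 Q (-1) ∧
    (∀ y₁ y₂ : Lˣ, K4 Q y₁ → K4 Q y₂ → K4 Q (y₁ * y₂)) ∧ (∀ y : Lˣ, K4 Q y → K4 Q y⁻¹)

/-- MODULE GDK (110 lines, uses GP L13 PRD).  PROOF.  Let `y` be Good, `ζ ∈ U` of 2-power order, `ζy` even.
(a) `y` even: if `ζ = 1` clear; otherwise `ζ` is Good (`z2`) and even (`UI.ev_of_tw`): PRD for `ζ, y`.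
(b) `y` not even, so `y` is odd (`UI.ev_or_od`), and then `ζ ≠ 1`.  `ξ` from `xi`.  `y₁ = yξ` is even
(`Ev.mul_od`).  `T = ξ⁻¹` is Good and `y₁T = y` is Good, `Gn ξ⁻¹`: L13(2) with `t = ξ⁻¹`: `yξ` is Good.
Choose `ζ₁ ∈ {θ, -1, -θ}`, `ζ₁ ≠ ζ` (so `ζ₁ ≠ 1`), and such that `ζ₁ξ⁻¹` is even: `ξ⁻¹ = z o` (`decomp`), `ζ₁ξ⁻¹` is
even unless `ζ₁ = z⁻¹`; at least one of the three elements is different from `ζ` and from `z⁻¹`.  `ζ₁` is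
Good and even, `ξ⁻¹` is Good and even: `ζ₁ξ⁻¹` is Good (PRD); `yξ` and `ζ₁ξ⁻¹` are Good, even, with
product `ζ₁y`, even (`ζ₁ ≠ 1` even, `y` odd): `ζ₁y` is Good.  `ζζ₁⁻¹ ≠ 1` is Good and even (`z2`), so
`ζy = (ζζ₁⁻¹)(ζ₁y)` is Good (PRD). -/
def StGDK : Prop :=
  ∀ (L A : Type) [CommRing L] [Group A] (Q : Fr L A) (y : Lˣ), C4 L A Q → Gd Q y → K4 Q y

/-- MODULE CT4 (150 lines, uses SS KSG GDK GD.StP1).  PROOF.  `y` even: `ζ = 1` in the definition of `K4`.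
Let `y` be odd, not Good.  `O = {o : K4 o ∧ Od o}`, a finite set containing `1`;
`𝒜 = {T : K4 T ∧ Ev T}`.  For `T ∈ 𝒜`: `T` is Good; `yT ∈ K4` is even (`Ev.mul_od`), so Good.  `c = 1-T`,
`d = 1-yT` in `U`, both Good (`Gd.one_sub`), so in `K4` (GDK); `ρ = c/d ∈ K4` (KSG).  `1-ρ = T(1-y)/d`.  If `ρ`
were even it would be Good and `1-y = T⁻¹d(1-ρ)` would be in `U`, i.e. `y` Good; so `ρ` is odd (`UI.ev_or_od`),
and `ρ ≠ 1` as `1-ρ` is a unit.  `T ↦ ρ` is injective (`(1-T)(1-yT') = (1-T')(1-yT)` gives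
`(T-T')(1-y) = 0`).  So `|𝒜| ≤ |O| - 1`.  But `o ↦ -o` maps `O` injectively into `𝒜` (`-o` is even:
`Ev.mul_od`), so `|O| ≤ |𝒜|`: contradiction. -/
def StCT4 : Prop :=
  ∀ (L A : Type) [CommRing L] [Group A] (Q : Fr L A) (y : Lˣ), C4 L A Q → K4 Q y →
    IsUnit (1 - (y : L)) → Gd Q y

/-! ### The final step: subgroups `K` with `1 - y ∈ K` -/

/-- data for the final step -/
structure KK (L : Type) [CommRing L] (K : Subgroup Lˣ) : Prop where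
  fin : Finite L
  nt : Nontrivial L
  two : IsUnit (2 : L)
  ui : UI K
  neg : (-1 : Lˣ) ∈ K
  gen : ∃ v ∈ K, Gn (v : L)
  cl : ∀ y ∈ K, IsUnit (1 - (y : L)) → ∃ u ∈ K, (u : L) = 1 - (y : L)

/-- MODULE B4K (150 lines, ring theory).  PROOF.  `Δ = {d ∈ P | ∃ z ∈ K, z = 1 + d}`, a finite set containing
`0`.  `z = 1+d` is odd: it is even or odd (`UI.ev_or_od`), and `z^m = -1` would give `2 ∈ P`, but `2` is a unit.
(1) `τ ∈ K` even, `d ∈ Δ`: `1-τ` is a unit (`Ev.isUnit`), so in `K`; `τ(1+d)` is even (`Ev.mul_od`), so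
`1-τ(1+d) ∈ K`; the quotient `1 - τd/(1-τ)` is in `K`, so `-τd/(1-τ) ∈ Δ`.  With `τ⁻¹`:
`-τ⁻¹/(1-τ⁻¹) = 1/(1-τ)`, so `d/(1-τ) ∈ Δ`.  (2) Multiplication by `1/(1-τ)` maps the finite set `Δ`
injectively to itself, so also `(1-τ)Δ ⊂ Δ`; hence `-τΔ ⊂ Δ` for all even `τ`; if `o ∈ K` is odd then `-o` is
even: `oΔ ⊂ Δ`.  (3) `d₁, d₂ ∈ Δ`: `1+d₁` is odd, so is its inverse, `d₂/(1+d₁) ∈ Δ`, and
`(1+d₁)(1+d₂/(1+d₁)) = 1+d₁+d₂ ∈ K`: `Δ` is closed under addition; finite, so `-Δ ⊂ Δ`.  (4) So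
`zΔ ⊂ Δ` for even and odd `z`, i.e. for all `z ∈ K`, in particular for `v`; `{c | cΔ ⊂ Δ}` is a
subring containing `v`, so `L` (`gn_iff`). -/
def StB4K : Prop :=
  ∀ (L : Type) [CommRing L] (K : Subgroup Lˣ), KK L K → ∀ P : Ideal L, P.IsMaximal →
    ∃ I : Ideal L, ∀ d : L, d ∈ I ↔ d ∈ P ∧ ∃ z ∈ K, (z : L) = 1 + d

/-- MODULE B5K (120 lines, uses B4K).  PROOF.  `I_P` = the ideal of B4K for a maximal ideal `P`.
`I_P` is contained in every maximal ideal: `d ∈ I_P`, `r ∈ L`: `rd ∈ I_P`, so `1+rd` is a unit (value of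
`z ∈ K`); so `d` is in the Jacobson radical (`Ideal.mem_jacobson_bot` or directly).  Hence `I_P = I_(P')` for all
`P, P'`; call it `I`.  (1) `y, z ∈ K` ⟹ `y - z ∈ I ∪ K`: `y - z = y(1 - z/y)`; if `1-z/y` is a unit it is in `K`
(`cl`); otherwise it is in some maximal ideal `P`, `d = z/y - 1 ∈ I_P = I`.  (2) `y ∈ K`, `d ∈ I`:
`y + d = y(1 + d/y) ∈ K`.  So `K ∪ I` is an additive subgroup (`-1 ∈ K`); it contains `1` and is stable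
under multiplication by `v ∈ K`; `Gn v`: `K ∪ I = L`.  So every element is a unit of `K` or in the proper
ideal `I`: `L` is local (`IsLocalRing.of_nonunits_add` or `IsLocalRing.of_unique_max_ideal`) and every unit is in
`K`. -/
def StB5K : Prop :=
  ∀ (L : Type) [CommRing L] (K : Subgroup Lˣ), KK L K → IsLocalRing L ∧ ∀ u : Lˣ, u ∈ K

/-- MODULE LC4 (50 lines, uses KSG GDK CT4 B5K).  PROOF.  `K = {y | K4 y}` is a subgroup of `U` (KSG).  `KK L K`: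
`UI K` as `K ≤ U`; `gen`: `ξ` from `xi` (GDK); `cl`: CT4, `Gd.one_sub`, GDK.  B5K. -/
def StLC4 : Prop :=
  ∀ (L A : Type) [CommRing L] [Group A] (Q : Fr L A), C4 L A Q →
    IsLocalRing L ∧ ∀ u : Lˣ, u ∈ Q.U

/-- MODULE OC4 (60 lines, uses NV UP L13).  PROOF.  `z2`: `ζ` is even (`UI.ev_of_tw`); `v` Good, `Gn v`, `ζv` Good
(UP(2)): L13(2).  `sh`: `t = v` (`Ev.mul_od`).  `xi`: `ξ = -v`: even (`Ev.mul_od` for `-1`, `v`), Good (NV, `neg_mem`),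
`Gn (-v)` (`gn_iff`). -/
def StOC4 : Prop :=
  ∀ (L A : Type) [CommRing L] [Group A] (Q : Fr L A) (v : Lˣ), CB L A Q → FO Q v →
    (∃ θ ∈ Q.U, θ ^ 2 = -1) → C4 L A Q

/-! ### Class O, no element of order 4 -/

/-- class O, Case B, no element of order 4 -/
structure D2 (L A : Type) [CommRing L] [Group A] (Q : Fr L A) (v : Lˣ) : Prop where
  cb : CB L A Q
  fo : FO Q v
  no : ¬ ∃ θ ∈ Q.U, θ ^ 2 = -1

/-- MODULE DOD (50 lines).  PROOF.  (1) `y ∈ U`, `y = z o` (`decomp`), `z, o ∈ U`.  If `z = 1`: `Od y`.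
Otherwise let `s` be minimal with `z^(2^s) = 1`, `s ≥ 1`, `z^(2^(s-1)) = -1` (UI); if `s ≥ 2` then
`θ = z^(2^(s-2))` has `θ² = -1`, contradiction; so `z = -1` and `-y = o` is odd.  (2) `Ev.neg_one.mul_od`,
`Ev.not_od` (`-1 ≠ 1`: `2` is a unit, `L` nontrivial). -/
def StDOD : Prop :=
  ∀ (L A : Type) [CommRing L] [Group A] (Q : Fr L A) (v : Lˣ), D2 L A Q v →
    (∀ y ∈ Q.U, Od y ∨ Od (-y)) ∧ (∀ y : Lˣ, Od y → Ev (-y) ∧ ¬ Ev y)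

/-- multiplication by `±t` preserves Goodness of even elements -/
def K2 {L A : Type} [CommRing L] [Group A] (Q : Fr L A) (t : Lˣ) : Prop :=
  t ∈ Q.U ∧ ∀ y ∈ Q.U, Ev y → Gd Q y →
    (Ev (t * y) → Gd Q (t * y)) ∧ (Ev (-(t * y)) → Gd Q (-(t * y)))

/-- MODULE K2G (90 lines, uses DOD).  PROOF.  `1`: if `y` is even then `-y` is odd (DOD(1): `y` is not odd), so not
even.  `-1` the same.  Product: `y` even Good; `t₂y` is odd or `-t₂y` is odd (DOD(1)), so one of them, `y'`, is even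
(DOD(2)) and Good by `K2 t₂`; `t₁t₂y = ± t₁y'` and `K2 t₁` for `y'`.  Inverse: `t⁻¹` is a power of `t`
(finite order).  Last claims: `y = -1` (even, Good since `2 ∈ U`) in `K2 a`: `-a` is even (DOD), so `-a` is
Good: `1 + a ∈ U`.  If `K2 y`, `Ev y`: `-y` is odd (DOD), `K2 (-y)`, so `1 + (-y) ∈ U`. -/
def StK2G : Prop :=
  ∀ (L A : Type) [CommRing L] [Group A] (Q : Fr L A) (v : Lˣ), D2 L A Q v →
    K2 Q 1 ∧ K2 Q (-1) ∧ (∀ t₁ t₂ : Lˣ, K2 Q t₁ → K2 Q t₂ → K2 Q (t₁ * t₂)) ∧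
    (∀ t : Lˣ, K2 Q t → K2 Q t⁻¹) ∧ (∀ a : Lˣ, K2 Q a → Od a → Q.In (1 + (a : L))) ∧
    (∀ y : Lˣ, K2 Q y → Ev y → Gd Q y)

/-- MODULE K2T (100 lines, uses DOD K2G L13 GP).  PROOF.  (1) `y` even Good; `Ty` is even (`Ev.mul_od`), `-(Ty)` is
odd, not even (DOD).  L13(2) for the even element `Ty` and `t = T⁻¹` (`Gd.inv`; `Gn T⁻¹`: `gn_iff`,
`inv_mem`): `Ty·T⁻¹ = y` is Good, so `Ty` is Good.
(2) By K2G it is enough to show `K2 T⁻¹`.  Let `y` be even Good, `z = T⁻¹y` (even).  `u = 1/(1-z)`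
(`Ev.isUnit`).  `T` and `zT = y` are Good, GP: `T ∈ Mr Q u`.  `t⁻¹` is in `K2`, so `t⁻¹y` (even) is
Good; `T t⁻¹` is Good and `z(Tt⁻¹) = t⁻¹y` is Good, GP: `Tt⁻¹ ∈ Mr Q u`.  So `t ∈ Mr Q u` (`inv_mem`),
`Mr Q u = ⊤` (`Gn t`), L13(1): `z` is Good. -/
def StK2T : Prop :=
  (∀ (L A : Type) [CommRing L] [Group A] (Q : Fr L A) (v : Lˣ), D2 L A Q v →
    ∀ T : Lˣ, Gd Q T → Od T → Gn (T : L) → K2 Q T) ∧
  (∀ (L A : Type) [CommRing L] [Group A] (Q : Fr L A) (v : Lˣ), D2 L A Q v →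
    ∀ T t : Lˣ, Gd Q T → Od T → K2 Q t → Od t → Gn (t : L) → Gd Q (T * t⁻¹) → K2 Q T)

/-- MODULE K2V (80 lines, uses DOD K2G K2T).  Here `v'` is the unit `1 - v`.  PROOF.  `v` and `v'` are Good
(`Gd.one_sub`), `Gn v'`.  `K2 v`: K2T(1).  `v'` is odd or `-v'` is odd (DOD).  `v'` odd: `K2 v'` by K2T(1).
`-v'` odd: `T = -v/v'` is odd, `1-T = (v'+v)/v' = 1/v' ∈ U`, so `T` is Good; `Gn T`: a subring containing
`T` contains `1-T = 1/v'`, `v'` (`inv_mem`), `v = 1-v'`.  K2T(1): `K2 T`; `v' = -v T⁻¹`: K2G. -/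
def StK2V : Prop :=
  ∀ (L A : Type) [CommRing L] [Group A] (Q : Fr L A) (v v' : Lˣ), D2 L A Q v →
    (v' : L) = 1 - (v : L) → K2 Q v ∧ K2 Q v'

/-- MODULE XP (150 lines, uses K2G K2T K2V DOD).  PROOF.  Notation `I(b)`: `1 + b ∈ U` for `K2 b`, `Od b` (K2G).
`c s` for an odd `s` with `K2 s`: `1 - cs = (1-s)(1 - a s/(1-s))`.
If `v'` is odd: `s₁ = 1/v`, `s₂ = 1/v'`: `1-s₁ = -v'/v`, `-s₁/(1-s₁) = 1/v'`, so `1 - cs₁ = -(v'/v)(1 + a/v') ∈ U`;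
`1-s₂ = -v/v'`, `-s₂/(1-s₂) = 1/v`, `1 - cs₂ = -(v/v')(1 + a/v) ∈ U`.  If `-v'` is odd: `s₁ = v`, `s₂ = -v/v'`:
`1-s₁ = v'`, `1 - cs₁ = v'(1 + a(-v/v')) ∈ U`; `1-s₂ = 1/v'`, `-s₂/(1-s₂) = v`, `1 - cs₂ = (1/v')(1 + a v) ∈ U`.
So in both cases `T = cs₁` and `cs₂` are Good, `T` is odd.  `t = s₁/s₂` (`= v'/v`, resp. `-v'`) is odd, `K2 t`,
`T t⁻¹ = cs₂`, and `Gn t`: `1 + v'/v = 1/v`, resp. `1-v' = v`.  K2T(2): `K2 T`, so `K2 c`, `c = T s₁⁻¹`. -/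
def StXP : Prop :=
  ∀ (L A : Type) [CommRing L] [Group A] (Q : Fr L A) (v a c : Lˣ), D2 L A Q v →
    K2 Q a → Od a → (c : L) = 1 + (a : L) → Od c → K2 Q c

/-- MODULE XM (150 lines, uses K2G K2T K2V DOD).  PROOF.  `I(b)` as in XP.  For odd `s` with `K2 s`:
`1 - (-cs) = 1 + s + as = (1+s)(1 + a s/(1+s))`.  If `v'` is odd: `s₁ = v/v'`, `s₂ = v'/v`: `1+s₁ = 1/v'`,
`s₁/(1+s₁) = v`, `1 + cs₁ = (1/v')(1 + av) ∈ U`; `1+s₂ = 1/v`, `s₂/(1+s₂) = v'`, `1 + cs₂ = (1/v)(1 + av') ∈ U`.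
If `-v'` is odd: `s₁ = -v'`, `s₂ = -1/v'`: `1+s₁ = v`, `s₁/(1+s₁) = -v'/v`, `1 + cs₁ = v(1 + a(-v'/v)) ∈ U`;
`1+s₂ = -v/v'`, `s₂/(1+s₂) = 1/v`, `1 + cs₂ = -(v/v')(1 + a/v) ∈ U`.
`T = -cs₁` and `-cs₂` are Good, odd.  `t = s₁/s₂` (`= (v/v')²`, resp. `v'² = (-v')²`) is odd, `K2 t`;
`Gn t`: the odd element `v/v'` (resp. `-v'`) is a power of its square `t` (`Od.eq_pow 1`), and
`1 + v/v' = 1/v'` (resp. `1 + (-v') = v`).  K2T(2): `K2 T`, `c = -T s₁⁻¹`. -/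
def StXM : Prop :=
  ∀ (L A : Type) [CommRing L] [Group A] (Q : Fr L A) (v a c : Lˣ), D2 L A Q v →
    K2 Q a → Od a → (c : L) = 1 + (a : L) → Od (-c) → K2 Q c

/-- MODULE XB (150 lines, uses K2G K2T K2V DOD).  PROOF.  `c ∈ U` (`a` Good).  First `c` odd.  For odd `s` with
`K2 s`: `1 - cs = 1 - s + as = (1-s)(1 + a s/(1-s))`.  If `v'` is odd: `s₁ = v`, `s₂ = v'`: `1 - cs₁ = v'(1 + a v/v')`,
`1 - cs₂ = v(1 + a v'/v)`.  If `-v'` is odd: `s₁ = 1/v`, `s₂ = -v'/v`: `1-s₁ = -v'/v`, `s₁/(1-s₁) = -1/v'`,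
`1 - cs₁ = (-v'/v)(1 + a(-1/v'))`; `1-s₂ = 1/v`, `s₂/(1-s₂) = -v'`, `1 - cs₂ = (1/v)(1 + a(-v'))`.  All in `U`
(K2G).  `T = cs₁`, `cs₂` are Good, `T` is odd; `t = s₁/s₂` (`= v/v'`, resp. `-1/v'`), `K2 t`, odd, `Gn t`
(`1 + v/v' = 1/v'`; resp. `1 + 1/t = 1-v' = v`).  K2T(2).
If `c` is not odd then `-c` is odd (DOD); `a⁻¹` is odd, Good, `K2`, and `c' = 1-a⁻¹ = -c/a` is odd, so `K2 c'` by
the first part; `c = -a c'`. -/
def StXB : Prop :=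
  ∀ (L A : Type) [CommRing L] [Group A] (Q : Fr L A) (v a c : Lˣ), D2 L A Q v →
    K2 Q a → Od a → Gd Q a → (c : L) = 1 - (a : L) → K2 Q c

/-- MODULE CT2 (120 lines, uses DOD K2G XP XM).  PROOF.  `y` even: K2G.  Let `y` be odd (DOD, `UI.ev_or_od`), not
Good.  `O = {a : K2 a ∧ Od a}`, finite, contains `1`.  For `a ∈ O`: `ya ∈ O`; `c = 1+a`, `d = 1+ya` are in
`U` (K2G) and `K2 c`, `K2 d` (XP or XM: `c` or `-c` is odd, DOD).  `ρ = c/d ∈ K2`.  `1-ρ = -a(1-y)/d`.  If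
`ρ` were even it would be Good (K2G) and `1-y = -a⁻¹d(1-ρ) ∈ U`; so `ρ` is odd, `ρ ∈ O`, and `ρ ≠ 1` (`1-ρ`
is a unit).  `a ↦ ρ` is injective (`(1+a)(1+yb) = (1+b)(1+ya)` gives `(a-b)(1-y) = 0`).  An injective
map `O → O ∖ {1}`: contradiction. -/
def StCT2 : Prop :=
  ∀ (L A : Type) [CommRing L] [Group A] (Q : Fr L A) (v y : Lˣ), D2 L A Q v → K2 Q y →
    IsUnit (1 - (y : L)) → Gd Q y

/-- MODULE LD2 (70 lines, uses DOD K2G K2V XP XM XB CT2 B5K).  PROOF.  `K = {t | K2 t}` is a subgroup of `U` (K2G).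
`KK L K`: `gen`: `v` (K2V).  `cl`: `y ∈ K`, `1-y` a unit: `y` is Good (CT2), `u ∈ U` with `u = 1-y`.  If `y` is odd: XB.
If `y` is not odd: `a = -y` is odd (DOD), `K2 a`, `u = 1+a`, and `u` or `-u` is odd: XP or XM.  B5K. -/
def StLD2 : Prop :=
  ∀ (L A : Type) [CommRing L] [Group A] (Q : Fr L A) (v : Lˣ), D2 L A Q v →
    IsLocalRing L ∧ ∀ u : Lˣ, u ∈ Q.U

/-! ### Class E -/

/-- facts about class E; `v = x^k` -/
structure EV (a : ℕ) (L : Type) [CommRing L] (x v : Lˣ) : Prop where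
  fin : Finite L
  a3 : 3 ≤ a
  vk : ∃ k : ℕ, Odd k ∧ x ^ k = v
  va : v ^ (2 ^ (a - 1)) = -1
  nx : ∃ h : ℕ, Even h ∧ x ^ h = -1
  two : IsUnit (2 : L)
  uv : IsUnit (1 - (v : L))
  gx : Gn (x : L)
  gx2 : Gn ((x ^ 2 : Lˣ) : L)
  gv : Gn (v : L)

/-- MODULE ER (130 lines, uses GNV).  PROOF.  `2h = 2^a b`, `h = 2^(a-1) b`, `b ∣ k` (from `2^a b ∣ 2^a k`), `k` is
odd, so `b` and `k/b` are odd.  `v = x^k`, `v^(2^(a-1)) = x^((k/b) h) = (-1)^(k/b) = -1`.  `h` is even.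
`1-v = x^l` is a unit.  `2` is a unit: modulo `2L`, `(1-v)^(2^a) = 1 - v^(2^a) = 0` (Frobenius;
`v^(2^a) = 1`), so the unit `(1-v)^(2^a)` is in `2L`.  `Gn v`: GNV.  `Gn (x²)`: let `R` be a subring containing
`x²`.  `l` even: `v = 1-x^l ∈ R`, `x^(k-1) ∈ R`, `x = v/x^(k-1) ∈ R` (`inv_mem`).  `l` odd: `v² = (x²)^k` and
`(1-v)² = (x²)^l` are in `R`, so `2v = 1 + v² - (1-v)² ∈ R`, `2` is a unit (`inv_mem`): `v ∈ R`, and then `x ∈ R` as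
before.  `Rf L x`: `x²-1` divides `x^(2k) - 1 = v² - 1`, which divides `v^(2^(a-1)) - 1 = -2`
(`2 ∣ 2^(a-1)`). -/
def StER : Prop :=
  ∀ (l k h a : ℕ) (L : Type) [CommRing L] (x : Lˣ), RE l k h a L x →
    EV a L x (x ^ k) ∧ Pool.Agent.Helper50.AY.Rf L x

/-- MODULE EG (120 lines, uses UP(1) SS GR).  PROOF.  `v` is Good by hypothesis.  `x` is Good: UP(1) (`x^k = v`).
`-x` is Good: `(-x)^k = -v` (`k` odd) and `(-v)^(1+2^(a-1)) = -(v v^(2^(a-1))) = v` (`1 + 2^(a-1)` is odd), so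
`v` is a power of `-x`: UP(1).  `x²` is Good: `1-x² = (1-x)(1-(-x))`.  `ιx`: `(ιx)² = x²`, Good, `Gn (x²)`: UP(1) for
`x²` in place of `v`.
`v^j`, `v^j ≠ 1`: `j = 2^s i`, `i` odd, `s < a` (`v^(2^a) = 1`); induction on `s`.  `s = 0`: `v` is a power of `v^j`
(`j` odd, `v^(2^a) = 1`): UP(1).  `s ≥ 1`: `1-v^j = (1-v^(j/2))(1-(-v^(j/2)))`, `-v^(j/2) = v^(j/2 + 2^(a-1))`,
both exponents have 2-adic valuation `s-1 < a-1`, so both elements are `≠ 1` and Good by induction. -/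
def StEG : Prop :=
  ∀ (a : ℕ) (L A : Type) [CommRing L] [Group A] (Q : Fr L A) (x v : Lˣ), EV a L x v → x ∈ Q.U →
    Gd Q v → Gd Q x ∧ (∀ ι ∈ Q.U, ι ^ 2 = 1 → Gd Q (ι * x)) ∧ (∀ j : ℕ, v ^ j ≠ 1 → Gd Q (v ^ j))

/-- MODULE CYC (70 lines).  PROOF.  (P(n)) if `z, v ∈ H`, `v^(2^n) = -1 = z^(2^n)` then `v` is a power of `z`:
induction on `n`; `n = 0`: `z = v`.  Step: P(n) for `z², v²`: `v² = z^(2m)`, `(v z^(-m))² = 1`, so
`v = ± z^m`, and `-1 = z^(2^(n+1))`.  General: `ζ = 1 = v^0`; otherwise (UI) there is `t` with `ζ^(2^t) = -1`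
(`s` minimal with `ζ^(2^s) = 1`, `t = s-1`).  `t ≥ n`: P(n) for `ζ^(2^(t-n))`, `v`: `v` is a power of `ζ`.
`t < n`: P(t) for `v^(2^(n-t))`, `ζ`: `ζ` is a power of `v`. -/
def StCYC : Prop :=
  ∀ (L : Type) [CommRing L] (H : Subgroup Lˣ) (v ζ : Lˣ) (n : ℕ), UI H → v ∈ H → ζ ∈ H →
    v ^ (2 ^ n) = -1 → Tw ζ → (∃ m : ℕ, ζ ^ m = v) ∨ (∃ m : ℕ, v ^ m = ζ)

/-- MODULE EC4 (120 lines, uses UP(1) EG CYC).  PROOF.  `2 = 1-(-1) ∈ U` since `-1 = v^(2^(a-1)) ≠ 1` is Good (EG);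
`-1 ≠ 1` as `2` is a unit and `L` is nontrivial.  `th`: `θ = v^(2^(a-2))`.  `z2`: CYC with `n = a-1`: `ζ = v^m ≠ 1`: EG;
`v = ζ^m`: UP(1).  `sh`: `t = v^j` with `j ∈ {1,3,5}`: `v^j` is Good (EG; `v^j ≠ 1` because `v^(j 2^(a-1)) = -1`),
`Gn (v^j)` as `v` is a power of `v^j` (`j` odd, `v^(2^a) = 1`).  For `y ∈ U`, `yv^j` is even or odd (`UI.ev_or_od`); if
`yv^j` and `yv^i` are both odd, `i < j` in `{1,3,5}`, then `v^(j-i)` is odd, but `v²`, `v⁴` are even (`a ≥ 3`):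
contradiction to `Ev.not_od`.  So at most one `j` is excluded by `y₁` and at most one by `y₂`.  `xi`: `ξ = v`. -/
def StEC4 : Prop :=
  ∀ (a : ℕ) (L A : Type) [CommRing L] [Group A] (Q : Fr L A) (x v : Lˣ), EV a L x v → x ∈ Q.U →
    Gd Q v → Nontrivial L → UI Q.U → C4 L A Q

/-! ### Induction on the ring -/

/-- MODULE SDX (120 lines; adapt the proof of GD.StSD in `Pool/Agent/Helper84/GD/M_SD.lean`).  PROOF.
`I = (1-ε)`.  `E'(a mod I) = E(εa)`, `F'(b mod I) = F(εb)` are well defined (`a ∈ (1-ε)L` implies `εa = 0`) and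
additive: a system `s'` over `L ⧸ I` in `A`.  Put `om₁ = E(εu)F(-ε/u)E(εu)` (`= s'.om` of the image of `u`) and
`om₂` the same with `1-ε`.  All of `E(εL), F(εL)` commute with all of `E((1-ε)L), F((1-ε)L)`, so `om(u) =
om₁ om₂`, and `om₂` commutes with `E(εL), F(εL)`: for a Weyl unit `u` the image of `u` is a Weyl unit of `s'`
(`u = 1`, `u = x`).  So `s'.gp` is finite. -/
def StSDX : Prop :=
  ∀ (L A : Type) [CommRing L] [Group A] (s : Sys L A) (x : Lˣ) (ε : L), s.Weyl 1 → s.Weyl x →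
    ε * ε = ε → FinP (L ⧸ Ideal.span {1 - ε}) (qx (Ideal.span {1 - ε}) x) →
    (∀ a b : L, s.E (ε * a) * s.F ((1 - ε) * b) = s.F ((1 - ε) * b) * s.E (ε * a)) →
    (∀ a b : L, s.E ((1 - ε) * a) * s.F (ε * b) = s.F (ε * b) * s.E ((1 - ε) * a)) →
    Finite (Subgroup.closure (Set.range (fun a => s.E (ε * a)) ∪ Set.range (fun a => s.F (ε * a))))

/-- MODULE SEX (80 lines, uses SDX; compare `Pool/Agent/Helper67/GD/M_SE.lean`).  PROOF.  SDX with `ε` and with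
`1-ε` gives finite subgroups `G₁, G₂`; they commute elementwise and `s.gp` is contained in the finite
subgroup `G₁G₂` (`E(a) = E(εa)E((1-ε)a)`). -/
def StSEX : Prop :=
  ∀ (L A : Type) [CommRing L] [Group A] (s : Sys L A) (x : Lˣ) (ε : L), s.Weyl 1 → s.Weyl x →
    ε * ε = ε → FinP (L ⧸ Ideal.span {1 - ε}) (qx (Ideal.span {1 - ε}) x) →
    FinP (L ⧸ Ideal.span {ε}) (qx (Ideal.span {ε}) x) →
    (∀ a b : L, s.E (ε * a) * s.F ((1 - ε) * b) = s.F ((1 - ε) * b) * s.E (ε * a)) →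
    (∀ a b : L, s.E ((1 - ε) * a) * s.F (ε * b) = s.F (ε * b) * s.E ((1 - ε) * a)) → Finite s.gp

/-- what has to be known for a ring `L` and a frame over it -/
def Good3 (L A : Type) [CommRing L] [Group A] (Q : Fr L A) (x : Lˣ) : Prop :=
  FinP L x ∨
  (∃ ε : L, ε * ε = ε ∧ ε ≠ 0 ∧ ε ≠ 1 ∧
    (∀ a b : L, Q.E (ε * a) * Q.F ((1 - ε) * b) = Q.F ((1 - ε) * b) * Q.E (ε * a)) ∧
    (∀ a b : L, Q.E ((1 - ε) * a) * Q.F (ε * b) = Q.F (ε * b) * Q.E ((1 - ε) * a))) ∨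
  (IsLocalRing L ∧ IsUnit (2 : L) ∧ ∀ u : Lˣ, u ∈ Q.U)

/-- MODULE INX (100 lines, uses GD.StHAT GD.StCEL AY.StPFA AY.StAUA SEX; compare
`Pool/Agent/Helper57/GD/M_IN.lean` and the module INA of project AY).  PROOF.  Strong induction on
`Nat.card L`.  `L` trivial: `E(a) = E(0) = 1 = F(b)`.  Otherwise the universal `s : Sys L H` (HAT), the frame `Q`
over `MulAut H` (AUA, with `Rf L x`), `x ∈ Q.U`.  `Good3`: (1) `FinP L x`: done.  (2) `ε`: `L ⧸ (1-ε)` and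
`L ⧸ (ε)` have smaller cardinality (`1-ε ≠ 0`, `ε ≠ 0`) and are in the class; SEX for `Q.toSys`: `Q.gp` is
finite.  (3) CEL: `Q.gp` is finite.  `Q.gp` is the range of `conj : H → MulAut H`, whose kernel is the centre; `H` is
perfect (PFA), so `H` is finite by Schur (`Pool.Agent.Helper60.DZ2.Red_schur`).  For any `(A, s')` the universal
map has range containing `s'.gp`. -/
def StINX : Prop :=
  ∀ (Cl : ∀ (L : Type) [CommRing L], Lˣ → Prop),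
    (∀ (L : Type) [CommRing L] (x : Lˣ), Cl L x → Pool.Agent.Helper50.AY.Rf L x) →
    (∀ (L : Type) [CommRing L] (x : Lˣ) (I : Ideal L), Cl L x → Cl (L ⧸ I) (qx I x)) →
    (∀ (L A : Type) [CommRing L] [Group A] (Q : Fr L A) (x : Lˣ), Cl L x → Nontrivial L →
      x ∈ Q.U → Good3 L A Q x) →
    ∀ (L : Type) [CommRing L] (x : Lˣ), Cl L x → FinP L x

/-- MODULE GO (80 lines, uses ROV UP INV IDP MXA CHV FPW TWO OC4 LC4 LD2 and C2.StIN).  PROOF.  `v = x^k`, `FO Q v` (ROV).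
`e, g, j, m` from IDP.  `e = 1`: CHV and C2.StIN: `FinP L (x^(2n))`, FPW.  `e ≠ 0, 1`: MXA, second alternative.
`e = 0`: `2` is a unit.  If some `ι ∈ U`, `ι² = 1`, `ι ≠ 1, -1`: `ε` with `2ε = 1+ι`; INV with `x := v` (`ιv` Good: UP(2),
`Tw ι`) for `(ι, ε)` and `(-ι, 1-ε)`; `ε ≠ 0, 1`.  Otherwise `UI U`; TWO: `CB`.  If there is `θ`: OC4, LC4.  If not:
`D2`, LD2.  Third alternative. -/
def StGO : Prop :=
  ∀ (l k h r : ℕ) (L A : Type) [CommRing L] [Group A] (Q : Fr L A) (x : Lˣ), RO l k h r L x →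
    Nontrivial L → x ∈ Q.U → Good3 L A Q x

/-- MODULE GE (60 lines, uses ER EG INV EC4 LC4).  PROOF.  `v = x^k`; `EV` (ER); `1-v = x^l ∈ U`, so `v` is Good.  If some
`ι ∈ U`, `ι² = 1`, `ι ≠ ±1`: INV with `x` for `(ι, ε)` and `(-ι, 1-ε)`.  Otherwise EC4, LC4. -/
def StGE : Prop :=
  ∀ (l k h a : ℕ) (L A : Type) [CommRing L] [Group A] (Q : Fr L A) (x : Lˣ), RE l k h a L x →
    Nontrivial L → x ∈ Q.U → Good3 L A Q x

/-- (own module) class O (INX, QUO, ROV, GO) -/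
def StFO : Prop :=
  ∀ (l k h r : ℕ) (L : Type) [CommRing L] (x : Lˣ), RO l k h r L x → FinP L x

/-- (own module) class E (INX, QUO, ER, GE) -/
def StFE : Prop :=
  ∀ (l k h a : ℕ) (L : Type) [CommRing L] (x : Lˣ), RE l k h a L x → FinP L x

end Pool.Agent.Helper48.OD
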